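import Mathlib

/-! # Jet identification numbers: perturbing lifts, integrating lifts -/

namespace Pool.Agent.X128.JI

open PowerSeries

section
variable {A : Type*} [CommRing A]

theorem deriv_X_pow_mul (N : ℕ) (a : A⟦X⟧) : ∃ b, d⁄dX A (X ^ (N + 1) * a) = X ^ N * b :=
  ⟨((N + 1 : ℕ) : A⟦X⟧) * a + X * d⁄dX A a, by
    rw [Derivation.leibniz, derivative_pow, derivative_X]
    simp only [smul_eq_mul, Nat.add_sub_cancel]
    ring⟩

theorem step_exists {n : ℕ} (b : Fin n) (z z' w : Fin n → A⟦X⟧) (m N : ℕ) (hN : 1 ≤ N)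
    (u : A⟦X⟧) (hu : IsUnit u) (hz : d⁄dX A (z b) = X ^ m * u) (hb : z' b = z b)
    (hs : ∀ i, i ≠ b → d⁄dX A (z i) = z' i * d⁄dX A (z b))
    (hw : ∀ i, X ^ (N + m + 1) ∣ w i - z i) :
    ∃ (w' : Fin n → A⟦X⟧) (u' : A⟦X⟧), IsUnit u' ∧ d⁄dX A (w b) = X ^ m * u' ∧ w' b = w b ∧
      (∀ i, i ≠ b → d⁄dX A (w i) = w' i * d⁄dX A (w b)) ∧ ∀ i, X ^ N ∣ w' i - z' i := by
  classical
  choose a ha using hw
  have hd : ∀ i, ∃ e, d⁄dX A (w i) = d⁄dX A (z i) + X ^ (N + m) * e := by
    intro i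
    obtain ⟨e, he⟩ := deriv_X_pow_mul (N + m) (a i)
    refine ⟨e, ?_⟩
    rw [← he, ← ha i, map_sub]; ring
  choose e he using hd
  have hU : IsUnit (u + X ^ N * e b) := by
    rw [isUnit_iff_constantCoeff] at hu ⊢
    have : constantCoeff (u + X ^ N * e b) = constantCoeff u := by
      rw [map_add, map_mul, map_pow, constantCoeff_X, zero_pow (by omega), zero_mul, add_zero]
    rwa [this]
  obtain ⟨v, hv⟩ := hU.exists_left_inv
  refine ⟨fun i => if i = b then w b else (z' i * u + X ^ N * e i) * v, u + X ^ N * e b, hU, ?_,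
    by simp, ?_, ?_⟩
  · rw [he b, hz]; ring
  · intro i hi
    simp only [hi, if_false]
    rw [he i, hs i hi, he b, hz]
    linear_combination (-(X ^ m * (z' i * u + X ^ N * e i))) * hv
  · intro i
    by_cases hi : i = b
    · subst hi
      simp only [if_true]
      rw [hb]
      exact (pow_dvd_pow _ (by omega)).trans ⟨a i, ha i⟩
    · simp only [hi, if_false]
      refine ⟨(e i - z' i * e b) * v, ?_⟩
      linear_combination (z' i) * hv

/-- A partial lift on the levels `L, …, k`, with `D (z j (c j)) = X ^ (m j) * unit`. -/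
structure Steps {n : ℕ} (c : ℕ → Fin n) (m : ℕ → ℕ) (L k : ℕ) (z : ℕ → Fin n → A⟦X⟧) : Prop where
  keep : ∀ j, L ≤ j → j < k → z (j + 1) (c j) = z j (c j)
  slope : ∀ j, L ≤ j → j < k → ∀ i, i ≠ c j →
    d⁄dX A (z j i) = z (j + 1) i * d⁄dX A (z j (c j))
  unit : ∀ j, L ≤ j → j < k → ∃ u : A⟦X⟧, IsUnit u ∧ d⁄dX A (z j (c j)) = X ^ (m j) * u

theorem Steps.mono {n : ℕ} {c : ℕ → Fin n} {m : ℕ → ℕ} {L L' k : ℕ} {z : ℕ → Fin n → A⟦X⟧}
    (h : Steps c m L k z) (hL : L ≤ L') : Steps c m L' k z :=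
  ⟨fun j h1 h2 => h.keep j (hL.trans h1) h2, fun j h1 h2 => h.slope j (hL.trans h1) h2,
    fun j h1 h2 => h.unit j (hL.trans h1) h2⟩

theorem N_pos {m N : ℕ → ℕ} {k L : ℕ} (hN : ∀ l, L ≤ l → l < k → N l = N (l + 1) + (m l + 1))
    (hk : 1 ≤ N k) : ∀ d l, l + d = k → L ≤ l → 1 ≤ N l := by
  intro d
  induction d with
  | zero => intro l h1 _; have : l = k := by omega
            rwa [this]
  | succ d ih =>
    intro l h1 h2
    have := ih (l + 1) (by omega) (by omega)
    have := hN l h2 (by omega)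
    omega

theorem chain {n : ℕ} {c : ℕ → Fin n} {m : ℕ → ℕ} {k : ℕ} {z : ℕ → Fin n → A⟦X⟧}
    (N : ℕ → ℕ) (hk : 1 ≤ N k) (d : ℕ) : ∀ (L : ℕ), L + d = k → Steps c m L k z →
    (∀ l, L ≤ l → l < k → N l = N (l + 1) + (m l + 1)) →
    ∀ f : Fin n → A⟦X⟧, (∀ i, X ^ (N L) ∣ f i - z L i) →
    ∃ w : ℕ → Fin n → A⟦X⟧, w L = f ∧ Steps c m L k w ∧
      ∀ l, L ≤ l → l ≤ k → ∀ i, X ^ (N l) ∣ w l i - z l i := by
  induction d with
  | zero =>
    intro L hL hz hN f hf
    have : L = k := by omega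
    subst this
    refine ⟨fun _ => f, rfl, ⟨fun j h1 h2 => by omega, fun j h1 h2 => by omega,
      fun j h1 h2 => by omega⟩, fun l h1 h2 i => ?_⟩
    have : l = L := by omega
    subst this
    exact hf i
  | succ d ih =>
    intro L hL hz hN f hf
    have hN1 : 1 ≤ N (L + 1) := N_pos hN hk d (L + 1) (by omega) (by omega)
    obtain ⟨u, hu, hzu⟩ := hz.unit L le_rfl (by omega)
    obtain ⟨w', u', hU, h1, h2, h3, h4⟩ := step_exists (c L) (z L) (z (L + 1)) f (m L)
      (N (L + 1)) hN1 u hu hzu (hz.keep L le_rfl (by omega)) (hz.slope L le_rfl (by omega))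
      (by intro i
          have := hf i
          rw [hN L le_rfl (by omega)] at this
          simpa [add_assoc] using this)
    obtain ⟨w, hw1, hw2, hw3⟩ := ih (L + 1) (by omega) (hz.mono (Nat.le_succ L))
      (fun l h1 h2 => hN l (by omega) h2) w' h4
    refine ⟨fun j => if j ≤ L then f else w j, by simp, ⟨?_, ?_, ?_⟩, ?_⟩
    · intro j h5 h6
      rcases Nat.eq_or_lt_of_le h5 with h7 | h7
      · subst h7
        simp only [le_refl, if_true, Nat.not_succ_le_self, if_false, hw1, h2]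
      · simp only [show ¬ j + 1 ≤ L by omega, show ¬ j ≤ L by omega, if_false]
        exact hw2.keep j (by omega) h6
    · intro j h5 h6 i hi
      rcases Nat.eq_or_lt_of_le h5 with h7 | h7
      · subst h7
        simp only [le_refl, if_true, Nat.not_succ_le_self, if_false, hw1]
        exact h3 i hi
      · simp only [show ¬ j + 1 ≤ L by omega, show ¬ j ≤ L by omega, if_false]
        exact hw2.slope j (by omega) h6 i hi
    · intro j h5 h6
      rcases Nat.eq_or_lt_of_le h5 with h7 | h7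
      · subst h7
        simp only [le_refl, if_true]
        exact ⟨u', hU, h1⟩
      · simp only [show ¬ j ≤ L by omega, if_false]
        exact hw2.unit j (by omega) h6
    · intro l h5 h6 i
      rcases Nat.eq_or_lt_of_le h5 with h7 | h7
      · subst h7
        simp only [le_refl, if_true]
        exact hf i
      · simp only [show ¬ l ≤ L by omega, if_false]
        exact hw3 l (by omega) h6 i

end

theorem exists_primitive (a : ℂ⟦X⟧) (v : ℂ) :
    ∃ f : ℂ⟦X⟧, d⁄dX ℂ f = a ∧ constantCoeff f = v := by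
  refine ⟨PowerSeries.mk (fun m => if m = 0 then v else coeff (m - 1) a / m), ?_, ?_⟩
  · ext m
    rw [coeff_derivative, coeff_mk]
    have h2 : ((m : ℂ) + 1) ≠ 0 := by exact_mod_cast Nat.succ_ne_zero m
    simp only [Nat.succ_ne_zero, if_false, Nat.add_sub_cancel, Nat.cast_add, Nat.cast_one]
    field_simp
  · rw [← coeff_zero_eq_constantCoeff_apply, coeff_mk]; simp

theorem down {n : ℕ} (c : ℕ → Fin n) (v : ℕ → Fin n → ℂ) : ∀ (L : ℕ) (w : ℕ → Fin n → ℂ⟦X⟧),
    (∀ i, constantCoeff (w L i) = v L i) → (∀ j < L, v (j + 1) (c j) = v j (c j)) →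
    ∃ w' : ℕ → Fin n → ℂ⟦X⟧, (∀ j, L ≤ j → w' j = w j) ∧
      (∀ j < L, w' (j + 1) (c j) = w' j (c j)) ∧
      (∀ j < L, ∀ i, i ≠ c j → d⁄dX ℂ (w' j i) = w' (j + 1) i * d⁄dX ℂ (w' j (c j))) ∧
      (∀ j ≤ L, ∀ i, constantCoeff (w' j i) = v j i) := by
  classical
  intro L
  induction L with
  | zero =>
    intro w hw _
    exact ⟨w, fun _ _ => rfl, fun j hj => by omega, fun j hj => by omega, fun j hj i => by
      have : j = 0 := by omega
      subst this; exact hw i⟩
  | succ L ih =>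
    intro w hw hv
    choose f hf1 hf2 using fun i => exists_primitive (w (L + 1) i * d⁄dX ℂ (w (L + 1) (c L))) (v L i)
    obtain ⟨w', h1, h2, h3, h4⟩ := ih
      (fun j => if j = L then (fun i => if i = c L then w (L + 1) (c L) else f i) else w j)
      (by intro i
          by_cases hi : i = c L
          · simp only [hi, if_true]; rw [hw, hv L (by omega)]
          · simp only [hi, if_true, if_false]; exact hf2 i)
      (fun j hj => hv j (by omega))
    have hL : w' L = fun i => if i = c L then w (L + 1) (c L) else f i := by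
      rw [h1 L le_rfl]; simp
    have hL1 : w' (L + 1) = w (L + 1) := by
      rw [h1 (L + 1) (by omega)]; simp
    refine ⟨w', ?_, ?_, ?_, ?_⟩
    · intro j hj
      rw [h1 j (by omega)]
      simp [show j ≠ L by omega]
    · intro j hj
      rcases Nat.eq_or_lt_of_le (Nat.lt_succ_iff.mp hj) with h5 | h5
      · subst h5; rw [hL, hL1]; simp
      · exact h2 j h5
    · intro j hj i hi
      rcases Nat.eq_or_lt_of_le (Nat.lt_succ_iff.mp hj) with h5 | h5
      · subst h5; rw [hL, hL1]; simp only [hi, if_false, if_true]; exact hf1 i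
      · exact h3 j h5 i hi
    · intro j hj i
      rcases Nat.eq_or_lt_of_le hj with h5 | h5
      · subst h5; rw [hL1]; exact hw i
      · exact h4 j (by omega) i

end Pool.Agent.X128.JI
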