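import Pool.Agent.X128.JI.A

/-! # Jet identification numbers: reparametrisations -/

namespace Pool.Agent.X128.JI

open PowerSeries

/-- composition with a parameter change -/
structure Cmp (φ : ℂ⟦X⟧ →+* ℂ⟦X⟧) (τ : ℂ⟦X⟧) : Prop where
  mX : φ X = τ
  mC : ∀ a, φ (C a) = C a
  zero : constantCoeff τ = 0
  deriv : ∀ f, d⁄dX ℂ (φ f) = φ (d⁄dX ℂ f) * d⁄dX ℂ τ

theorem exists_cmp (τ : ℂ⟦X⟧) (h0 : constantCoeff τ = 0) :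
    ∃ φ : ℂ⟦X⟧ →+* ℂ⟦X⟧, Cmp φ τ ∧ ∀ f, φ f = f.subst τ := by
  have hs : HasSubst τ := HasSubst.of_constantCoeff_zero' h0
  refine ⟨((substAlgHom hs : ℂ⟦X⟧ →ₐ[ℂ] ℂ⟦X⟧) : ℂ⟦X⟧ →+* ℂ⟦X⟧), ⟨?_, ?_, h0, ?_⟩, ?_⟩
  · exact substAlgHom_X hs
  · intro a
    exact (substAlgHom hs : ℂ⟦X⟧ →ₐ[ℂ] ℂ⟦X⟧).commutes a
  · intro f
    have h1 := derivative_subst (f := f) hs
    simpa [coe_substAlgHom] using h1
  · intro f
    simp [coe_substAlgHom]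

theorem exists_tail (f : ℂ⟦X⟧) : ∃ g, f = C (constantCoeff f) + X * g := by
  have h : (X : ℂ⟦X⟧) ∣ f - C (constantCoeff f) := by
    rw [X_dvd_iff]; simp
  obtain ⟨g, hg⟩ := h
  exact ⟨g, by rw [← hg]; ring⟩

variable {φ φ₁ φ₂ : ℂ⟦X⟧ →+* ℂ⟦X⟧} {τ τ₁ τ₂ : ℂ⟦X⟧}

theorem Cmp.const (h : Cmp φ τ) (f : ℂ⟦X⟧) : constantCoeff (φ f) = constantCoeff f := by
  obtain ⟨g, hg⟩ := exists_tail f
  rw [hg, map_add, h.mC, map_mul, h.mX]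
  simp [h.zero]

theorem Cmp.exists_rho (h : Cmp φ τ) : ∃ ρ, τ = X * ρ ∧ constantCoeff ρ = coeff 1 τ := by
  obtain ⟨ρ, hρ⟩ := X_dvd_iff.mpr h.zero
  refine ⟨ρ, hρ, ?_⟩
  have h1 := coeff_succ_X_mul 0 ρ
  rw [zero_add, coeff_zero_eq_constantCoeff_apply] at h1
  rw [hρ, h1]

theorem cmp_sub_dvd (h₁ : Cmp φ₁ τ₁) (h₂ : Cmp φ₂ τ₂) {e : ℕ} (he : X ^ e ∣ τ₁ - τ₂) :
    ∀ e' ≤ e, ∀ s, (X : ℂ⟦X⟧) ^ e' ∣ φ₁ s - φ₂ s := by
  intro e'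
  induction e' with
  | zero => intro _ s; simp
  | succ e' ih =>
    intro h s
    obtain ⟨g, hg⟩ := exists_tail s
    obtain ⟨ρ, hρ, -⟩ := h₂.exists_rho
    have h3 : φ₁ s - φ₂ s = (τ₁ - τ₂) * φ₁ g + τ₂ * (φ₁ g - φ₂ g) := by
      rw [hg, map_add, map_add, h₁.mC, h₂.mC, map_mul, map_mul, h₁.mX, h₂.mX]; ring
    rw [h3]
    refine dvd_add (((pow_dvd_pow _ h).trans he).mul_right _) ?_
    rw [pow_succ', hρ, mul_assoc]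
    exact mul_dvd_mul_left _ ((ih (by omega) g).mul_left _)

theorem taylor (h₁ : Cmp φ₁ τ₁) (h₂ : Cmp φ₂ τ₂) (hζ : coeff 1 τ₁ = coeff 1 τ₂) {e : ℕ}
    (he : X ^ e ∣ τ₁ - τ₂) (m : ℕ) (s : ℂ⟦X⟧) :
    ∃ V W : ℂ⟦X⟧, φ₁ (X ^ (m + 1) * s) - φ₂ (X ^ (m + 1) * s)
      = X ^ m * ((τ₁ - τ₂) * V + X ^ (e + 1) * W) ∧
      constantCoeff V = (m + 1 : ℕ) * (coeff 1 τ₁) ^ m * constantCoeff s := by
  obtain ⟨ρ₁, hρ₁, hz₁⟩ := h₁.exists_rho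
  obtain ⟨ρ₂, hρ₂, hz₂⟩ := h₂.exists_rho
  obtain ⟨G, hG⟩ := cmp_sub_dvd h₁ h₂ he e le_rfl s
  have hgeo := (Commute.all τ₁ τ₂).geom_sum₂_mul (m + 1)
  have hsum : ∑ i ∈ Finset.range (m + 1), τ₁ ^ i * τ₂ ^ (m + 1 - 1 - i)
      = X ^ m * ∑ i ∈ Finset.range (m + 1), ρ₁ ^ i * ρ₂ ^ (m - i) := by
    rw [Finset.mul_sum]
    refine Finset.sum_congr rfl fun i hi => ?_
    have hi' : i ≤ m := Nat.lt_succ_iff.mp (Finset.mem_range.mp hi)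
    rw [Nat.add_sub_cancel, hρ₁, hρ₂, mul_pow, mul_pow]
    have : (X : ℂ⟦X⟧) ^ m = X ^ i * X ^ (m - i) := by rw [← pow_add]; congr 1; omega
    rw [this]; ring
  refine ⟨(∑ i ∈ Finset.range (m + 1), ρ₁ ^ i * ρ₂ ^ (m - i)) * φ₁ s, ρ₂ ^ (m + 1) * G, ?_, ?_⟩
  · rw [map_mul, map_mul, map_pow, map_pow, h₁.mX, h₂.mX]
    have h3 : τ₁ ^ (m + 1) * φ₁ s - τ₂ ^ (m + 1) * φ₂ s
        = (τ₁ ^ (m + 1) - τ₂ ^ (m + 1)) * φ₁ s + τ₂ ^ (m + 1) * (φ₁ s - φ₂ s) := by ring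
    rw [h3, ← hgeo, hsum, hG]
    have h4 : τ₂ ^ (m + 1) = X ^ (m + 1) * ρ₂ ^ (m + 1) := by rw [hρ₂, mul_pow]
    rw [h4]; ring
  · rw [map_mul, map_sum, h₁.const]
    congr 1
    have : ∀ i ∈ Finset.range (m + 1), constantCoeff (ρ₁ ^ i * ρ₂ ^ (m - i)) = (coeff 1 τ₁) ^ m := by
      intro i hi
      have hi' : i ≤ m := Nat.lt_succ_iff.mp (Finset.mem_range.mp hi)
      rw [map_mul, map_pow, map_pow, hz₁, hz₂, ← hζ, ← pow_add]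
      congr 1; omega
    rw [Finset.sum_congr rfl this]
    simp

/-- if `V` is a unit, `X ^ e` divides `a * V` only if it divides `a`. -/
theorem dvd_of_dvd_mul_unit {a V : ℂ⟦X⟧} {e : ℕ} (hV : IsUnit V) (h : X ^ e ∣ a * V) : X ^ e ∣ a := by
  obtain ⟨v, hv⟩ := hV.exists_right_inv
  have := h.mul_right v
  rwa [mul_assoc, hv, mul_one] at this

theorem isUnit_of_const {V : ℂ⟦X⟧} (h : constantCoeff V ≠ 0) : IsUnit V :=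
  isUnit_iff_constantCoeff.mpr (isUnit_iff_ne_zero.mpr h)

/-- the leading coefficients of the parameter changes -/
theorem zeta_pow (h₁ : Cmp φ₁ τ₁) (h₂ : Cmp φ₂ τ₂) (q b' : ℕ) (hb' : 1 ≤ b') (s : ℂ⟦X⟧)
    (hs : constantCoeff s ≠ 0) (h : X ^ (q + b') ∣ φ₁ (X ^ q * s) - φ₂ (X ^ q * s)) :
    coeff 1 τ₁ ^ q = coeff 1 τ₂ ^ q := by
  obtain ⟨ρ₁, hρ₁, hz₁⟩ := h₁.exists_rho
  obtain ⟨ρ₂, hρ₂, hz₂⟩ := h₂.exists_rho
  have e1 : φ₁ (X ^ q * s) - φ₂ (X ^ q * s) = X ^ q * (ρ₁ ^ q * φ₁ s - ρ₂ ^ q * φ₂ s) := by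
    rw [map_mul, map_mul, map_pow, map_pow, h₁.mX, h₂.mX, hρ₁, hρ₂, mul_pow, mul_pow]; ring
  rw [e1, pow_add, mul_dvd_mul_iff_left (pow_ne_zero _ X_ne_zero)] at h
  have h2 : (X : ℂ⟦X⟧) ∣ ρ₁ ^ q * φ₁ s - ρ₂ ^ q * φ₂ s := (dvd_pow_self _ (by omega)).trans h
  rw [X_dvd_iff, map_sub, map_mul, map_mul, map_pow, map_pow, hz₁, hz₂, h₁.const, h₂.const,
    sub_eq_zero] at h2
  exact mul_right_cancel₀ hs h2

theorem core (h₁ : Cmp φ₁ τ₁) (h₂ : Cmp φ₂ τ₂) (hζ : coeff 1 τ₁ = coeff 1 τ₂)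
    (hζ0 : coeff 1 τ₁ ≠ 0) (q' μ' b' M : ℕ) (s g : ℂ⟦X⟧) (v : ℂ)
    (hs : constantCoeff s ≠ 0) (ε₁ ε₂ : ℂ) (hε : ε₁ ≠ ε₂) (hM : M < μ' + 1 + b')
    (hσ : X ^ (q' + 1 + b') ∣ φ₁ (X ^ (q' + 1) * s) - φ₂ (X ^ (q' + 1) * s))
    (hx : X ^ (μ' + 1 + b') ∣ φ₁ (C v + X ^ (μ' + 1) * g + C ε₁ * X ^ M)
      - φ₂ (C v + X ^ (μ' + 1) * g + C ε₂ * X ^ M)) : False := by
  -- first: `X ^ (b' + 1) ∣ τ₁ - τ₂`
  have key : ∀ e ≤ b' + 1, X ^ e ∣ τ₁ - τ₂ := by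
    intro e
    induction e with
    | zero => intro _; simp
    | succ e ih =>
      intro he
      obtain ⟨V, W, hVW, hV⟩ := taylor h₁ h₂ hζ (ih (by omega)) q' s
      have hVu : IsUnit V := isUnit_of_const (by
        rw [hV]; exact mul_ne_zero (mul_ne_zero (by exact_mod_cast Nat.succ_ne_zero q')
          (pow_ne_zero _ hζ0)) hs)
      have h3 : X ^ (e + 1) ∣ (τ₁ - τ₂) * V + X ^ (e + 1) * W := by
        rw [hVW] at hσ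
        have h4 : X ^ q' * X ^ (b' + 1) ∣ X ^ q' * ((τ₁ - τ₂) * V + X ^ (e + 1) * W) := by
          rw [← pow_add]
          refine (pow_dvd_pow _ (by omega)).trans hσ
        rw [mul_dvd_mul_iff_left (pow_ne_zero _ X_ne_zero)] at h4
        exact (pow_dvd_pow _ he).trans h4
      have h5 : X ^ (e + 1) ∣ (τ₁ - τ₂) * V := by
        have := dvd_sub h3 (dvd_mul_right (X ^ (e + 1)) W)
        simpa using this
      exact dvd_of_dvd_mul_unit hVu h5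
  obtain ⟨V, W, hVW, -⟩ := taylor h₁ h₂ hζ (key (b' + 1) le_rfl) μ' g
  have h6 : X ^ (μ' + 1 + b') ∣ φ₁ (X ^ (μ' + 1) * g) - φ₂ (X ^ (μ' + 1) * g) := by
    rw [hVW]
    have : (X : ℂ⟦X⟧) ^ (μ' + 1 + b') = X ^ μ' * X ^ (b' + 1) := by rw [← pow_add]; congr 1; omega
    rw [this]
    refine mul_dvd_mul_left _ (dvd_add ((key _ le_rfl).mul_right _) ?_)
    exact ((pow_dvd_pow _ (by omega)).mul_right _)
  have h7 : X ^ (μ' + 1 + b') ∣ C ε₁ * τ₁ ^ M - C ε₂ * τ₂ ^ M := by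
    have h8 := dvd_sub hx h6
    have h9 : φ₁ (C v + X ^ (μ' + 1) * g + C ε₁ * X ^ M)
        - φ₂ (C v + X ^ (μ' + 1) * g + C ε₂ * X ^ M)
        - (φ₁ (X ^ (μ' + 1) * g) - φ₂ (X ^ (μ' + 1) * g)) = C ε₁ * τ₁ ^ M - C ε₂ * τ₂ ^ M := by
      simp only [map_add, h₁.mC, h₂.mC]
      rw [map_mul φ₁ (C ε₁), map_mul φ₂ (C ε₂), map_pow, map_pow, h₁.mC, h₂.mC, h₁.mX, h₂.mX]
      ring
    rwa [h9] at h8
  obtain ⟨ρ₁, hρ₁, hz₁⟩ := h₁.exists_rho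
  obtain ⟨ρ₂, hρ₂, hz₂⟩ := h₂.exists_rho
  have h10 : C ε₁ * τ₁ ^ M - C ε₂ * τ₂ ^ M = X ^ M * (C ε₁ * ρ₁ ^ M - C ε₂ * ρ₂ ^ M) := by
    rw [hρ₁, hρ₂, mul_pow, mul_pow]; ring
  obtain ⟨d, hd⟩ : ∃ d, μ' + 1 + b' = M + (d + 1) := ⟨μ' + b' - M, by omega⟩
  rw [h10, hd, pow_add, mul_dvd_mul_iff_left (pow_ne_zero _ X_ne_zero)] at h7
  have h11 : (X : ℂ⟦X⟧) ∣ C ε₁ * ρ₁ ^ M - C ε₂ * ρ₂ ^ M := (dvd_pow_self _ (by omega)).trans h7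
  rw [X_dvd_iff, map_sub, map_mul, map_mul, map_pow, map_pow, hz₁, hz₂, ← hζ,
    constantCoeff_C, constantCoeff_C, ← sub_mul] at h11
  rcases mul_eq_zero.mp h11 with h | h
  · exact hε (sub_eq_zero.mp h)
  · exact pow_ne_zero _ hζ0 h

/-- one comparison step for two lifts -/
theorem cmp_step {Z₁i Z₁b Z₁' Z₂i Z₂b Z₂' u : ℂ⟦X⟧} {m e q E : ℕ}
    (s₁ : d⁄dX ℂ Z₁i = Z₁' * d⁄dX ℂ Z₁b) (s₂ : d⁄dX ℂ Z₂i = Z₂' * d⁄dX ℂ Z₂b)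
    (hu : IsUnit u) (hb : d⁄dX ℂ Z₁b = X ^ m * u)
    (hi : X ^ (e + m + 1) ∣ Z₁i - Z₂i) (hE : X ^ (E + 1) ∣ Z₁b - Z₂b) (hq : X ^ q ∣ Z₂')
    (hqE : e + m ≤ q + E) : X ^ e ∣ Z₁' - Z₂' := by
  obtain ⟨a, ha⟩ := hi
  obtain ⟨a', ha'⟩ := deriv_X_pow_mul (e + m) a
  obtain ⟨b, hb'⟩ := hE
  obtain ⟨b', hb''⟩ := deriv_X_pow_mul E b
  have h1 : d⁄dX ℂ Z₁i - d⁄dX ℂ Z₂i = X ^ (e + m) * a' := by rw [← map_sub, ha, ha']
  have h2 : d⁄dX ℂ Z₁b - d⁄dX ℂ Z₂b = X ^ E * b' := by rw [← map_sub, hb', hb'']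
  have h3 : X ^ m * ((Z₁' - Z₂') * u) = X ^ (e + m) * a' - Z₂' * (X ^ E * b') := by
    rw [← h1, ← h2, s₁, s₂, hb]; ring
  have h4 : X ^ m * X ^ e ∣ X ^ m * ((Z₁' - Z₂') * u) := by
    rw [h3, ← pow_add]
    refine dvd_sub ?_ ?_
    · rw [add_comm m e]; exact dvd_mul_right _ _
    · obtain ⟨w, hw⟩ := hq
      rw [hw]
      have : X ^ q * w * (X ^ E * b') = X ^ (q + E) * (w * b') := by rw [pow_add]; ring
      rw [this]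
      exact (pow_dvd_pow _ (by omega)).mul_right _
  rw [mul_dvd_mul_iff_left (pow_ne_zero _ X_ne_zero)] at h4
  exact dvd_of_dvd_mul_unit hu h4

/-- comparison of two lifts whose base curves agree to order `r + 1` -/
theorem compare {n : ℕ} {c : ℕ → Fin n} {m : ℕ → ℕ} {h : ℕ} {Z₁ Z₂ : ℕ → Fin n → ℂ⟦X⟧}
    (H₁ : Steps c m 0 (h + 2) Z₁) (H₂ : Steps c m 0 (h + 2) Z₂) (u x : Fin n) (hxu : u ≠ x)
    (hc : ∀ j ≤ h, c j = u) (hx : c (h + 1) = x) (μ₀ μ q b b' : ℕ) (hm : ∀ j ≤ h, m j + 1 = μ₀)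
    (hmx : m (h + 1) + 1 = μ) (hq : μ₀ = q + μ) (hb : b = μ + b')
    (h0 : ∀ i, X ^ ((h + 1) * μ₀ + b) ∣ Z₁ 0 i - Z₂ 0 i) (hσ : X ^ q ∣ Z₂ (h + 2) u) :
    X ^ b ∣ Z₁ (h + 2) x - Z₂ (h + 2) x ∧ X ^ (q + b') ∣ Z₁ (h + 2) u - Z₂ (h + 2) u := by
  have hU : ∀ j ≤ h + 1, Z₁ j u = Z₁ 0 u ∧ Z₂ j u = Z₂ 0 u := by
    intro j
    induction j with
    | zero => intro _; exact ⟨rfl, rfl⟩
    | succ j ih =>
      intro hj
      obtain ⟨i1, i2⟩ := ih (by omega)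
      have k1 := H₁.keep j (by omega) (by omega)
      have k2 := H₂.keep j (by omega) (by omega)
      rw [hc j (by omega)] at k1 k2
      exact ⟨k1.trans i1, k2.trans i2⟩
  have hL : ∀ j ≤ h + 1, ∀ i, X ^ ((h + 1 - j) * μ₀ + b) ∣ Z₁ j i - Z₂ j i := by
    intro j
    induction j with
    | zero => intro _ i; exact h0 i
    | succ j ih =>
      intro hj i
      have hjc := hc j (by omega)
      have hsub : (h + 1 - j) * μ₀ + b = ((h + 1 - (j + 1)) * μ₀ + b) + m j + 1 := by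
        have h1 : h + 1 - j = (h + 1 - (j + 1)) + 1 := by omega
        rw [h1, add_mul, one_mul, ← hm j (by omega)]; ring
      by_cases hi : i = u
      · subst hi
        rw [(hU (j + 1) hj).1, (hU (j + 1) hj).2]
        refine (pow_dvd_pow _ ?_).trans (h0 i)
        have : (h + 1 - (j + 1)) * μ₀ ≤ (h + 1) * μ₀ := Nat.mul_le_mul_right _ (by omega)
        omega
      · obtain ⟨v, hv, hvb⟩ := H₁.unit j (by omega) (by omega)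
        refine cmp_step (e := (h + 1 - (j + 1)) * μ₀ + b) (q := 0)
          (E := (h + 1 - (j + 1)) * μ₀ + b + m j)
          (H₁.slope j (by omega) (by omega) i (by rw [hjc]; exact hi))
          (H₂.slope j (by omega) (by omega) i (by rw [hjc]; exact hi)) hv hvb ?_ ?_ (by simp)
          (by omega)
        · rw [← hsub]; exact ih (by omega) i
        · rw [← hsub]; exact ih (by omega) (c j)
  have hb1 : ∀ i, X ^ b ∣ Z₁ (h + 1) i - Z₂ (h + 1) i := by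
    intro i
    have := hL (h + 1) le_rfl i
    simpa using this
  refine ⟨?_, ?_⟩
  · have k1 := H₁.keep (h + 1) (by omega) (by omega)
    have k2 := H₂.keep (h + 1) (by omega) (by omega)
    rw [hx] at k1 k2
    rw [k1, k2]; exact hb1 x
  · obtain ⟨v, hv, hvb⟩ := H₁.unit (h + 1) (by omega) (by omega)
    refine cmp_step (e := q + b') (q := q) (E := b - 1)
      (H₁.slope (h + 1) (by omega) (by omega) u (by rw [hx]; exact hxu))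
      (H₂.slope (h + 1) (by omega) (by omega) u (by rw [hx]; exact hxu)) hv hvb ?_ ?_ hσ
      (by omega)
    · rw [(hU (h + 1) le_rfl).1, (hU (h + 1) le_rfl).2]
      refine (pow_dvd_pow _ ?_).trans (h0 u)
      have : 1 * μ₀ ≤ (h + 1) * μ₀ := Nat.mul_le_mul_right _ (by omega)
      omega
    · have : b - 1 + 1 = b := by omega
      rw [this]; exact hb1 _

end Pool.Agent.X128.JI
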