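import Pool.Agent.X128.JI.A

/-! # Jet identification numbers: families of lifts and the linearised lift -/

namespace Pool.Agent.X128.JI

open PowerSeries

theorem deriv_map {A B : Type*} [CommRing A] [CommRing B] (φ : A →+* B) (f : A⟦X⟧) :
    d⁄dX B (map φ f) = map φ (d⁄dX A f) := by
  ext l
  rw [coeff_derivative, coeff_map, coeff_map, coeff_derivative]
  simp

/-- evaluation of the parameter -/
noncomputable abbrev ev (ε : ℂ) : (Polynomial ℂ)⟦X⟧ →+* ℂ⟦X⟧ := map (Polynomial.evalRingHom ε)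

theorem dvd_of_ev {m : ℕ} {f : (Polynomial ℂ)⟦X⟧} (h : ∀ ε, X ^ m ∣ ev ε f) : X ^ m ∣ f := by
  rw [X_pow_dvd_iff]
  intro l hl
  apply Polynomial.funext
  intro ε
  have := (X_pow_dvd_iff.mp (h ε)) l hl
  rw [coeff_map] at this
  simpa using this

theorem family_step {n : ℕ} (b : Fin n) (m : ℕ) (G : Fin n → (Polynomial ℂ)⟦X⟧)
    (z z' : ℂ → Fin n → ℂ⟦X⟧) (hG : ∀ ε i, ev ε (G i) = z ε i) (hkeep : ∀ ε, z' ε b = z ε b)
    (hs : ∀ ε i, i ≠ b → d⁄dX ℂ (z ε i) = z' ε i * d⁄dX ℂ (z ε b))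
    (hu : ∀ ε, ∃ u, IsUnit u ∧ d⁄dX ℂ (z ε b) = X ^ m * u) :
    ∃ G' : Fin n → (Polynomial ℂ)⟦X⟧, (∀ ε i, ev ε (G' i) = z' ε i) ∧ G' b = G b ∧
      (∀ i, i ≠ b → d⁄dX _ (G i) = G' i * d⁄dX _ (G b)) ∧
      ∃ U, IsUnit U ∧ d⁄dX _ (G b) = X ^ m * U := by
  classical
  have hdiv : ∀ i, X ^ m ∣ d⁄dX (Polynomial ℂ) (G i) := by
    intro i
    apply dvd_of_ev
    intro ε
    obtain ⟨u, -, hu2⟩ := hu ε
    rw [← deriv_map, hG]
    by_cases hi : i = b
    · subst hi; rw [hu2]; exact dvd_mul_right _ _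
    · rw [hs ε i hi, hu2]; exact (dvd_mul_right _ _).mul_left _
  choose E hE using hdiv
  have hB : IsUnit (E b) := by
    rw [isUnit_iff_constantCoeff]
    have hne : ∀ ε, (constantCoeff (E b)).eval ε ≠ 0 := by
      intro ε h0
      obtain ⟨u, hu1, hu2⟩ := hu ε
      have h1 : ev ε (E b) = u := by
        have h2 : X ^ m * ev ε (E b) = X ^ m * u := by
          rw [← hu2, ← hG, deriv_map, hE b, map_mul, map_pow]
          simp
        exact mul_left_cancel₀ (pow_ne_zero _ X_ne_zero) h2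
      have h3 := isUnit_iff_constantCoeff.mp hu1
      rw [← h1] at h3
      have h4 : constantCoeff (ev ε (E b)) = (constantCoeff (E b)).eval ε := by
        rw [← coeff_zero_eq_constantCoeff_apply, ← coeff_zero_eq_constantCoeff_apply, coeff_map]
        simp
      rw [h4, h0] at h3
      exact not_isUnit_zero h3
    rw [Polynomial.isUnit_iff_degree_eq_zero]
    by_contra hdeg
    obtain ⟨x, hx⟩ := IsAlgClosed.exists_root _ hdeg
    exact hne x hx
  obtain ⟨v, hv⟩ := hB.exists_left_inv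
  have hsl : ∀ i, d⁄dX (Polynomial ℂ) (G i) = (E i * v) * d⁄dX (Polynomial ℂ) (G b) := by
    intro i
    rw [hE i, hE b]
    linear_combination (-(X ^ m * E i)) * hv
  refine ⟨fun i => if i = b then G b else E i * v, ?_, by simp, ?_, ⟨E b, hB, hE b⟩⟩
  · intro ε i
    by_cases hi : i = b
    · subst hi; simp only [if_true]; rw [hG, hkeep]
    · simp only [hi, if_false]
      obtain ⟨u, hu1, hu2⟩ := hu ε
      have hne : d⁄dX ℂ (z ε b) ≠ 0 := by
        rw [hu2]; exact mul_ne_zero (pow_ne_zero _ X_ne_zero) hu1.ne_zero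
      apply mul_right_cancel₀ hne
      rw [← hs ε i hi, ← hG ε i, ← hG ε b, deriv_map, deriv_map, hsl i]
      simp only [map_mul]
  · intro i hi
    simp only [hi, if_false]
    exact hsl i

theorem family {n : ℕ} (c : ℕ → Fin n) (m : ℕ → ℕ) (G : Fin n → (Polynomial ℂ)⟦X⟧)
    (z : ℂ → ℕ → Fin n → ℂ⟦X⟧) (hG : ∀ ε i, ev ε (G i) = z ε 0 i) :
    ∀ k, (∀ ε, Steps c m 0 k (z ε)) → ∃ Z : ℕ → Fin n → (Polynomial ℂ)⟦X⟧, Z 0 = G ∧
      Steps c m 0 k Z ∧ ∀ j ≤ k, ∀ ε i, ev ε (Z j i) = z ε j i := by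
  intro k
  induction k with
  | zero =>
    intro _
    refine ⟨fun _ => G, rfl, ⟨fun j _ h => by omega, fun j _ h => by omega,
      fun j _ h => by omega⟩, fun j hj ε i => ?_⟩
    have : j = 0 := by omega
    subst this; exact hG ε i
  | succ k ih =>
    intro H
    obtain ⟨Z, h0, h1, h2⟩ := ih (fun ε => ⟨fun j a b => (H ε).keep j a (by omega),
      fun j a b => (H ε).slope j a (by omega), fun j a b => (H ε).unit j a (by omega)⟩)
    obtain ⟨G', g1, g2, g3, g4⟩ := family_step (c k) (m k) (Z k) (fun ε => z ε k)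
      (fun ε => z ε (k + 1)) (fun ε i => h2 k le_rfl ε i)
      (fun ε => (H ε).keep k (by omega) (by omega))
      (fun ε i hi => (H ε).slope k (by omega) (by omega) i hi)
      (fun ε => (H ε).unit k (by omega) (by omega))
    refine ⟨fun j => if j ≤ k then Z j else G', by simp [h0], ⟨?_, ?_, ?_⟩, ?_⟩
    · intro j _ hj
      rcases Nat.eq_or_lt_of_le (Nat.lt_succ_iff.mp hj) with h | h
      · subst h; simp only [Nat.not_succ_le_self, if_false, le_refl, if_true]; exact g2
      · simp only [show j ≤ k by omega, show j + 1 ≤ k by omega, if_true]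
        exact h1.keep j (by omega) h
    · intro j _ hj i hi
      rcases Nat.eq_or_lt_of_le (Nat.lt_succ_iff.mp hj) with h | h
      · subst h; simp only [Nat.not_succ_le_self, if_false, le_refl, if_true]; exact g3 i hi
      · simp only [show j ≤ k by omega, show j + 1 ≤ k by omega, if_true]
        exact h1.slope j (by omega) h i hi
    · intro j _ hj
      simp only [show j ≤ k by omega, if_true]
      rcases Nat.eq_or_lt_of_le (Nat.lt_succ_iff.mp hj) with h | h
      · subst h; exact g4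
      · exact h1.unit j (by omega) h
    · intro j hj ε i
      rcases Nat.eq_or_lt_of_le hj with h | h
      · subst h; simp only [Nat.not_succ_le_self, if_false]; exact g1 ε i
      · simp only [show j ≤ k by omega, if_true]
        exact h2 j (by omega) ε i

/-- the linear part in the parameter, at the parameter `0` -/
noncomputable def lin (f : (Polynomial ℂ)⟦X⟧) : ℂ⟦X⟧ := PowerSeries.mk fun l => (coeff l f).coeff 1

theorem coeff_ev_zero (f : (Polynomial ℂ)⟦X⟧) (l : ℕ) : coeff l (ev 0 f) = (coeff l f).coeff 0 := by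
  rw [coeff_map, Polynomial.coeff_zero_eq_eval_zero]; rfl

theorem lin_mul (f g : (Polynomial ℂ)⟦X⟧) : lin (f * g) = lin f * ev 0 g + ev 0 f * lin g := by
  ext l
  unfold lin
  rw [coeff_mk, coeff_mul, Polynomial.finsetSum_coeff, map_add, coeff_mul, coeff_mul,
    ← Finset.sum_add_distrib]
  refine Finset.sum_congr rfl fun p _ => ?_
  rw [Polynomial.mul_coeff_one, coeff_ev_zero, coeff_ev_zero, coeff_mk, coeff_mk]
  ring

theorem lin_deriv (f : (Polynomial ℂ)⟦X⟧) : lin (d⁄dX _ f) = d⁄dX ℂ (lin f) := by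
  ext l
  unfold lin
  rw [coeff_mk, coeff_derivative, coeff_derivative, coeff_mk]
  have : (((l : Polynomial ℂ) + 1)) = Polynomial.C ((l : ℂ) + 1) := by simp
  rw [this, Polynomial.coeff_mul_C]

theorem int_dvd {e : ℕ} {f : ℂ⟦X⟧} (h : X ^ e ∣ d⁄dX ℂ f) (h0 : constantCoeff f = 0) :
    X ^ (e + 1) ∣ f := by
  rw [X_pow_dvd_iff] at h ⊢
  intro l hl
  rcases l with _ | l
  · simpa using h0
  · have := h l (by omega)
    rw [coeff_derivative] at this
    have h2 : ((l : ℂ) + 1) ≠ 0 := by exact_mod_cast Nat.succ_ne_zero l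
    exact (mul_eq_zero.mp this).resolve_right h2

/-- the linearised lift `w` along the lift `z` -/
structure LinLift {n : ℕ} (c : ℕ → Fin n) (m : ℕ → ℕ) (k : ℕ) (z w : ℕ → Fin n → ℂ⟦X⟧) :
    Prop where
  steps : Steps c m 0 k z
  keep : ∀ j < k, w (j + 1) (c j) = w j (c j)
  slope : ∀ j < k, ∀ i, i ≠ c j → d⁄dX ℂ (w j i)
    = w (j + 1) i * d⁄dX ℂ (z j (c j)) + z (j + 1) i * d⁄dX ℂ (w j (c j))
  value : ∀ j ≤ k, ∀ i, constantCoeff (w j i) = 0

theorem LinLift.eta {n : ℕ} {c : ℕ → Fin n} {m : ℕ → ℕ} {k : ℕ} {z w : ℕ → Fin n → ℂ⟦X⟧}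
    (H : LinLift c m k z w) (N : ℕ → ℕ) (hk : N k = 1)
    (hN : ∀ l < k, N l = N (l + 1) + (m l + 1)) :
    ∀ d j, j + 1 + d = k → ∀ i, i ≠ c j →
      X ^ (N (j + 1) + 1) ∣ w j i - z (j + 1) i * w j (c j) := by
  intro d
  induction d with
  | zero =>
    intro j hj i hi
    have hjk : j + 1 = k := by omega
    rw [hjk, hk, ← hjk]
    have hd : d⁄dX ℂ (w j i - z (j + 1) i * w j (c j))
        = w (j + 1) i * d⁄dX ℂ (z j (c j)) - d⁄dX ℂ (z (j + 1) i) * w j (c j) := by
      rw [map_sub, Derivation.leibniz, H.slope j (by omega) i hi]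
      simp only [smul_eq_mul]; ring
    apply int_dvd
    · rw [hd, pow_one]
      refine dvd_sub ?_ ?_
      · exact (X_dvd_iff.mpr (H.value (j + 1) (by omega) i)).mul_right _
      · exact (X_dvd_iff.mpr (H.value j (by omega) (c j))).mul_left _
    · rw [map_sub, map_mul, H.value j (by omega), H.value j (by omega)]; simp
  | succ d ih =>
    intro j hj i hi
    have ih' := ih (j + 1) (by omega)
    have hd : d⁄dX ℂ (w j i - z (j + 1) i * w j (c j))
        = w (j + 1) i * d⁄dX ℂ (z (j + 1) (c j)) - d⁄dX ℂ (z (j + 1) i) * w (j + 1) (c j) := by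
      rw [map_sub, Derivation.leibniz, H.slope j (by omega) i hi,
        H.steps.keep j (by omega) (by omega), H.keep j (by omega)]
      simp only [smul_eq_mul]; ring
    obtain ⟨v, -, hv⟩ := H.steps.unit (j + 1) (by omega) (by omega)
    have hsl := H.steps.slope (j + 1) (by omega) (by omega)
    rw [hN (j + 1) (by omega)]
    have hE : N (j + 2) + (m (j + 1) + 1) + 1 = (m (j + 1) + (N (j + 1 + 1) + 1)) + 1 := by
      have : j + 2 = j + 1 + 1 := rfl
      rw [this]; ring
    have hgoal : N (j + 1 + 1) + (m (j + 1) + 1) + 1 = (m (j + 1) + (N (j + 1 + 1) + 1)) + 1 := by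
      ring
    rw [hgoal]
    apply int_dvd _ (by rw [map_sub, map_mul, H.value j (by omega), H.value j (by omega)]; simp)
    rw [hd]
    by_cases hb : c (j + 1) = c j
    · -- no change of base
      have hi' : i ≠ c (j + 1) := by rw [hb]; exact hi
      have e1 : w (j + 1) i * d⁄dX ℂ (z (j + 1) (c j)) - d⁄dX ℂ (z (j + 1) i) * w (j + 1) (c j)
          = d⁄dX ℂ (z (j + 1) (c (j + 1))) *
            (w (j + 1) i - z (j + 1 + 1) i * w (j + 1) (c (j + 1))) := by
        rw [hsl i hi', hb]; ring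
      rw [e1, hv, pow_add, mul_assoc]
      exact mul_dvd_mul_left _ ((ih' i hi').mul_left _)
    · have hb' : c j ≠ c (j + 1) := fun h => hb h.symm
      by_cases hi' : i = c (j + 1)
      · have e1 : w (j + 1) i * d⁄dX ℂ (z (j + 1) (c j)) - d⁄dX ℂ (z (j + 1) i) * w (j + 1) (c j)
            = d⁄dX ℂ (z (j + 1) (c (j + 1))) *
              (-(w (j + 1) (c j) - z (j + 1 + 1) (c j) * w (j + 1) (c (j + 1)))) := by
          rw [hi', hsl (c j) hb']; ring
        rw [e1, hv, pow_add, mul_assoc]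
        exact mul_dvd_mul_left _ (((ih' (c j) hb').neg_right).mul_left _)
      · have e1 : w (j + 1) i * d⁄dX ℂ (z (j + 1) (c j)) - d⁄dX ℂ (z (j + 1) i) * w (j + 1) (c j)
            = d⁄dX ℂ (z (j + 1) (c (j + 1))) *
              ((w (j + 1) i - z (j + 1 + 1) i * w (j + 1) (c (j + 1))) * z (j + 1 + 1) (c j)
                - z (j + 1 + 1) i *
                  (w (j + 1) (c j) - z (j + 1 + 1) (c j) * w (j + 1) (c (j + 1)))) := by
          rw [hsl (c j) hb', hsl i hi']; ring
        rw [e1, hv, pow_add, mul_assoc]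
        refine mul_dvd_mul_left _ (Dvd.dvd.mul_left (dvd_sub ?_ ?_) _)
        · exact (ih' i hi').mul_right _
        · exact (ih' (c j) hb').mul_left _

/-- lower bound for a jet identification number -/
theorem LinLift.bound {n : ℕ} {c : ℕ → Fin n} {m : ℕ → ℕ} {k : ℕ} {z w : ℕ → Fin n → ℂ⟦X⟧}
    (H : LinLift c m k z w) (N : ℕ → ℕ) (hk : N k = 1)
    (hN : ∀ l < k, N l = N (l + 1) + (m l + 1)) {h : ℕ} (hh : h + 1 < k) {u x i : Fin n}
    (hc : ∀ j ≤ h, c j = u) (hx : c (h + 1) = x) (hiu : i ≠ u) (hix : i ≠ x) (hux : x ≠ u)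
    (μ₀ : ℕ) (hm : ∀ j ≤ h, m j + 1 = μ₀) (R : ℕ) (hwi : w 0 i = X ^ R)
    (hw0 : ∀ i', i' ≠ i → w 0 i' = 0) : (h + 1) * μ₀ + (N (h + 2) + 1) ≤ R := by
  have hU : ∀ j ≤ h + 1, w j u = 0 := by
    intro j
    induction j with
    | zero => intro _; exact hw0 u hiu.symm
    | succ j ih =>
      intro hj
      have := H.keep j (by omega)
      rw [hc j (by omega)] at this
      rw [this]; exact ih (by omega)
  have hs : ∀ j ≤ h, ∀ i', i' ≠ u → d⁄dX ℂ (w j i') = w (j + 1) i' * d⁄dX ℂ (z j u) := by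
    intro j hj i' hi'
    have := H.slope j (by omega) i' (by rw [hc j hj]; exact hi')
    rw [hc j hj, hU j (by omega)] at this
    simpa using this
  have hX : ∀ j ≤ h + 1, w j x = 0 := by
    intro j
    induction j with
    | zero => intro _; exact hw0 x hix.symm
    | succ j ih =>
      intro hj
      have h1 := hs j (by omega) x hux
      rw [ih (by omega), map_zero] at h1
      obtain ⟨v, hv, hvb⟩ := H.steps.unit j (by omega) (by omega)
      rw [hc j (by omega)] at hvb
      rw [hvb] at h1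
      have h2 : (X : ℂ⟦X⟧) ^ m j * v ≠ 0 := mul_ne_zero (pow_ne_zero _ X_ne_zero) hv.ne_zero
      exact (mul_eq_zero.mp h1.symm).resolve_right h2
  have htop : X ^ (N (h + 2) + 1) ∣ w (h + 1) i := by
    have := H.eta N hk hN (k - (h + 2)) (h + 1) (by omega) i (by rw [hx]; exact hix)
    rw [hx, hX (h + 1) le_rfl] at this
    simpa using this
  have hdown : ∀ d ≤ h + 1, X ^ (d * μ₀ + (N (h + 2) + 1)) ∣ w (h + 1 - d) i := by
    intro d
    induction d with
    | zero => intro _; simpa using htop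
    | succ d ih =>
      intro hd
      have h1 := ih (by omega)
      have e1 : h + 1 - d = (h + 1 - (d + 1)) + 1 := by omega
      rw [e1] at h1
      have h2 := hs (h + 1 - (d + 1)) (by omega) i hiu
      obtain ⟨v, hv, hvb⟩ := H.steps.unit (h + 1 - (d + 1)) (by omega) (by omega)
      rw [hc _ (by omega)] at hvb
      have e2 : (d + 1) * μ₀ + (N (h + 2) + 1)
          = (d * μ₀ + (N (h + 2) + 1) + m (h + 1 - (d + 1))) + 1 := by
        rw [add_mul, one_mul, ← hm (h + 1 - (d + 1)) (by omega)]; ring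
      rw [e2]
      apply int_dvd _ (H.value _ (by omega) i)
      rw [h2, hvb, pow_add]
      exact mul_dvd_mul h1 (dvd_mul_right _ _)
  have := hdown (h + 1) le_rfl
  rw [Nat.sub_self, hwi] at this
  by_contra hcon
  have h3 := (X_pow_dvd_iff.mp this) R (by omega)
  rw [coeff_X_pow_self] at h3
  exact one_ne_zero h3

end Pool.Agent.X128.JI
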