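import Pool.Agent.X128.JI.B
import Pool.Agent.X128.JI.C

/-! # Jet identification numbers: auxiliary facts on lifts -/

namespace Pool.Agent.X128.JI

open PowerSeries

section
variable {A : Type*} [CommRing A]

theorem Steps.uniq [NoZeroDivisors A] [Nontrivial A] {n : ℕ} {c : ℕ → Fin n} {m : ℕ → ℕ} {L k : ℕ}
    {z w : ℕ → Fin n → A⟦X⟧}
    (hz : Steps c m L k z) (hw : Steps c m L k w) (h : z L = w L) :
    ∀ d, L + d ≤ k → z (L + d) = w (L + d) := by
  intro d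
  induction d with
  | zero => intro _; exact h
  | succ d ih =>
    intro hd
    have ih' := ih (by omega)
    funext i
    by_cases hi : i = c (L + d)
    · subst hi
      have h1 := hz.keep (L + d) (by omega) (by omega)
      have h2 := hw.keep (L + d) (by omega) (by omega)
      rw [ih'] at h1
      exact h1.trans h2.symm
    · have h1 := hz.slope (L + d) (by omega) (by omega) i hi
      have h2 := hw.slope (L + d) (by omega) (by omega) i hi
      rw [ih', h2] at h1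
      obtain ⟨u, hu, hub⟩ := hw.unit (L + d) (by omega) (by omega)
      have hne : d⁄dX A (w (L + d) (c (L + d))) ≠ 0 := by
        rw [hub]
        exact mul_ne_zero (pow_ne_zero _ X_ne_zero) hu.ne_zero
      exact (mul_right_cancel₀ hne h1).symm

theorem Steps.map {B : Type*} [CommRing B] (φ : A →+* B) {n : ℕ} {c : ℕ → Fin n} {m : ℕ → ℕ}
    {L k : ℕ} {z : ℕ → Fin n → A⟦X⟧} (hz : Steps c m L k z) :
    Steps c m L k (fun j i => PowerSeries.map φ (z j i)) := by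
  refine ⟨fun j h1 h2 => ?_, fun j h1 h2 i hi => ?_, fun j h1 h2 => ?_⟩
  · simp only [hz.keep j h1 h2]
  · simp only [deriv_map]
    rw [hz.slope j h1 h2 i hi, map_mul]
  · obtain ⟨u, hu, hub⟩ := hz.unit j h1 h2
    refine ⟨PowerSeries.map φ u, hu.map _, ?_⟩
    simp only [deriv_map]
    rw [hub, map_mul, map_pow]; simp

end

theorem Steps.comp {n : ℕ} {c : ℕ → Fin n} {m : ℕ → ℕ}
    {L k : ℕ} {z : ℕ → Fin n → ℂ⟦X⟧} (hz : Steps c m L k z) {φ : ℂ⟦X⟧ →+* ℂ⟦X⟧} {τ : ℂ⟦X⟧}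
    (h : Cmp φ τ) (h1 : coeff 1 τ ≠ 0) : Steps c m L k (fun j i => φ (z j i)) := by
  obtain ⟨ρ, hρ, hz₁⟩ := h.exists_rho
  have hρu : IsUnit ρ := isUnit_of_const (by rw [hz₁]; exact h1)
  have hdu : IsUnit (d⁄dX ℂ τ) := isUnit_of_const (by
    rw [← coeff_zero_eq_constantCoeff_apply, coeff_derivative]; simpa using h1)
  refine ⟨fun j h1 h2 => ?_, fun j h1 h2 i hi => ?_, fun j h1 h2 => ?_⟩
  · simp only [hz.keep j h1 h2]
  · simp only [h.deriv]
    rw [hz.slope j h1 h2 i hi, map_mul]; ring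
  · obtain ⟨u, hu, hub⟩ := hz.unit j h1 h2
    refine ⟨ρ ^ m j * φ u * d⁄dX ℂ τ, ((hρu.pow _).mul (hu.map _)).mul hdu, ?_⟩
    simp only [h.deriv]
    rw [hub, map_mul, map_pow, h.mX, hρ, mul_pow, ← hρ]; ring

/-- convergent power series -/
def Convergent (f : ℂ⟦X⟧) : Prop := ∃ K : ℝ, ∀ l, ‖coeff l f‖ ≤ K ^ (l + 1)

theorem convergent_trunc (T : ℕ) (f : ℂ⟦X⟧) : Convergent ((trunc T f : Polynomial ℂ) : ℂ⟦X⟧) := by
  refine ⟨1 + ∑ l ∈ Finset.range T, ‖coeff l f‖, fun l => ?_⟩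
  have h0 : 0 ≤ ∑ l ∈ Finset.range T, ‖coeff l f‖ := Finset.sum_nonneg fun _ _ => norm_nonneg _
  have h1 : (1 : ℝ) ≤ 1 + ∑ l ∈ Finset.range T, ‖coeff l f‖ := by linarith
  refine le_trans ?_ (le_self_pow₀ h1 (Nat.succ_ne_zero l))
  rw [Polynomial.coeff_coe, coeff_trunc]
  split_ifs with hl
  · have := Finset.single_le_sum (f := fun l => ‖coeff l f‖) (fun _ _ => norm_nonneg _)
      (Finset.mem_range.mpr hl)
    linarith
  · simp only [norm_zero]; linarith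

theorem trunc_dvd (T : ℕ) (f : ℂ⟦X⟧) : X ^ T ∣ ((trunc T f : Polynomial ℂ) : ℂ⟦X⟧) - f := by
  rw [X_pow_dvd_iff]
  intro l hl
  rw [map_sub, Polynomial.coeff_coe, coeff_trunc, if_pos hl, sub_self]

/-- a formal lift is close to the lift of a polynomial germ -/
theorem trunc_lift {n : ℕ} {c : ℕ → Fin n} {m : ℕ → ℕ} {k : ℕ} {w : ℕ → Fin n → ℂ⟦X⟧}
    (hw : Steps c m 0 k w) (T : ℕ) : ∃ w' : ℕ → Fin n → ℂ⟦X⟧, Steps c m 0 k w' ∧
      (∀ i, Convergent (w' 0 i)) ∧ (∀ i, X ^ T ∣ w' 0 i - w 0 i) ∧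
      ∀ l ≤ k, ∀ i, X ^ 2 ∣ w' l i - w l i := by
  set N : ℕ → ℕ := fun l => 2 + ∑ j ∈ Finset.Ico l k, (m j + 1) with hNdef
  have hN : ∀ l, 0 ≤ l → l < k → N l = N (l + 1) + (m l + 1) := by
    intro l _ hl
    simp only [hNdef]
    rw [Finset.sum_eq_sum_Ico_succ_bot hl]; ring
  have hNk : N k = 2 := by simp [hNdef]
  have h2 : ∀ l, 2 ≤ N l := fun l => by simp only [hNdef]; omega
  obtain ⟨w', h0, h1, h3⟩ := chain N (by omega) k 0 (by omega) hw hN
    (fun i => ((trunc (max (N 0) T) (w 0 i) : Polynomial ℂ) : ℂ⟦X⟧))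
    (fun i => (pow_dvd_pow _ (le_max_left _ _)).trans (trunc_dvd _ _))
  refine ⟨w', h1, fun i => ?_, fun i => ?_, fun l hl i => ?_⟩
  · rw [h0]; exact convergent_trunc _ _
  · rw [h0]; exact (pow_dvd_pow _ (le_max_right _ _)).trans (trunc_dvd _ _)
  · exact (pow_dvd_pow _ (h2 l)).trans (h3 l (by omega) hl i)

theorem coeff_of_dvd_sub {f g : ℂ⟦X⟧} {e l : ℕ} (h : X ^ e ∣ f - g) (hl : l < e) :
    coeff l f = coeff l g := by
  have := X_pow_dvd_iff.mp h l hl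
  rw [map_sub, sub_eq_zero] at this
  exact this

theorem exists_unit {f : ℂ⟦X⟧} (hf : f ≠ 0) : ∃ u, IsUnit u ∧ f = X ^ f.order.toNat * u := by
  exact ⟨divXPowOrder f, isUnit_divided_by_X_pow_order hf, X_pow_order_mul_divXPowOrder.symm⟩

theorem pow_unit_inj {a b : ℕ} {u v : ℂ⟦X⟧} (hu : IsUnit u) (hv : IsUnit v)
    (h : X ^ a * u = X ^ b * v) : a = b := by
  have key : ∀ {a b : ℕ} {u v : ℂ⟦X⟧}, IsUnit u → X ^ a * u = X ^ b * v → b ≤ a := by
    intro a b u v hu h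
    by_contra hlt
    have h1 : X ^ b ∣ X ^ a * u := by rw [h]; exact dvd_mul_right _ _
    have h2 := dvd_of_dvd_mul_unit hu h1
    have h3 := X_pow_dvd_iff.mp h2 a (by omega)
    rw [coeff_X_pow_self] at h3
    exact one_ne_zero h3
  exact le_antisymm (key hv h.symm) (key hu h)

end Pool.Agent.X128.JI
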