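import Pool.Agent.X128.JI.D

/-! # Jet identification numbers: the deformation of a lift -/

namespace Pool.Agent.X128.JI

open PowerSeries

theorem base_const {A : Type*} [CommRing A] {n : ℕ} {c : ℕ → Fin n} {h : ℕ} {u : Fin n}
    {z : ℕ → Fin n → A⟦X⟧} (hc : ∀ j ≤ h, c j = u)
    (hk : ∀ j ≤ h, z (j + 1) (c j) = z j (c j)) : ∀ j ≤ h + 1, z j u = z 0 u := by
  intro j
  induction j with
  | zero => intro _; rfl
  | succ j ih =>
    intro hj
    have := hk j (by omega)
    rw [hc j (by omega)] at this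
    rw [this]; exact ih (by omega)

theorem deform {n : ℕ} {c : ℕ → Fin n} {m : ℕ → ℕ} {k : ℕ} {z : ℕ → Fin n → ℂ⟦X⟧}
    (hz : Steps c m 0 k z) (N : ℕ → ℕ) (hNk : N k = 1)
    (hN : ∀ l < k, N l = N (l + 1) + (m l + 1)) {h : ℕ} (hh : h + 1 < k) {u x : Fin n}
    (hc : ∀ j ≤ h, c j = u) (hx : c (h + 1) = x) (hux : u ≠ x) (v : ℕ → Fin n → ℂ)
    (hv : ∀ j ≤ k, ∀ i, constantCoeff (z j i) = v j i) (hμM : m (h + 1) + 1 ≤ N (h + 2))
    (S : Finset (Fin n)) (hS : ∀ s ∈ S, coeff 1 (z k s) ≠ 0) :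
    ∃ P : Polynomial ℂ, P ≠ 0 ∧ ∀ ε : ℂ, P.eval ε ≠ 0 → ∃ w : ℕ → Fin n → ℂ⟦X⟧,
      Steps c m 0 k w ∧ (∀ j ≤ k, ∀ i, constantCoeff (w j i) = v j i) ∧
      (∀ s ∈ S, coeff 1 (w k s) ≠ 0) ∧ w (h + 2) u = z (h + 2) u ∧
      w (h + 2) x = z (h + 2) x + C ε * X ^ (N (h + 2)) := by
  classical
  have hevC : ∀ (ε : ℂ) (g : ℂ⟦X⟧), ev ε (PowerSeries.map Polynomial.C g) = g := by
    intro ε g
    ext l
    rw [coeff_map, coeff_map]; simp
  have hZC := (hz.map (Polynomial.C : ℂ →+* Polynomial ℂ)).mono (Nat.zero_le (h + 2))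
  obtain ⟨W, hW0, hWs, hWd⟩ := chain N (by omega) (k - (h + 2)) (h + 2) (by omega) hZC
    (fun l _ hl => hN l hl)
    (fun i => PowerSeries.map Polynomial.C (z (h + 2) i)
      + if i = x then C (Polynomial.X : Polynomial ℂ) * X ^ (N (h + 2)) else 0)
    (fun i => by
      by_cases hi : i = x
      · simp only [hi, if_true, add_sub_cancel_left]; exact dvd_mul_left _ _
      · simp [hi])
  have hWx : ∀ ε, ev ε (W (h + 2) x) = z (h + 2) x + C ε * X ^ (N (h + 2)) := by
    intro ε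
    rw [hW0]
    simp only [if_true]
    rw [map_add, hevC, map_mul, map_pow]
    simp
  have hWi : ∀ ε i, i ≠ x → ev ε (W (h + 2) i) = z (h + 2) i := by
    intro ε i hi
    rw [hW0]
    simp only [hi, if_false, add_zero]
    exact hevC ε _
  -- at the parameter `0`
  have hW00 : ∀ d, h + 2 + d ≤ k → (fun i => ev 0 (W (h + 2 + d) i)) = z (h + 2 + d) := by
    refine (hWs.map (Polynomial.evalRingHom 0)).uniq (hz.mono (Nat.zero_le _)) ?_
    funext i
    by_cases hi : i = x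
    · subst hi; rw [hWx]; simp
    · exact hWi 0 i hi
  obtain ⟨u1, hu1, hu1b⟩ := hz.unit (h + 1) (by omega) (by omega)
  have hkx := hz.keep (h + 1) (by omega) (by omega)
  rw [hx] at hkx hu1b
  -- the polynomials to be avoided
  set Q : Polynomial ℂ := coeff (m (h + 1)) (d⁄dX (Polynomial ℂ) (W (h + 2) x)) with hQ
  have hQev : ∀ ε, Q.eval ε = coeff (m (h + 1)) (d⁄dX ℂ (z (h + 2) x + C ε * X ^ (N (h + 2)))) := by
    intro ε
    rw [← hWx ε, deriv_map, coeff_map, hQ]; rfl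
  have hQ0 : Q ≠ 0 := by
    intro h0
    have h1 := hQev 0
    rw [h0, map_zero, zero_mul, add_zero, hkx, hu1b, coeff_X_pow_mul', if_pos le_rfl,
      Nat.sub_self, coeff_zero_eq_constantCoeff_apply] at h1
    have h2 := isUnit_iff_constantCoeff.mp hu1
    rw [← h1] at h2
    simp at h2
  have hP : ∀ s ∈ S, coeff 1 (W k s) ≠ 0 := by
    intro s hs h0
    have h1 := congrFun (hW00 (k - (h + 2)) (by omega)) s
    have h2 : h + 2 + (k - (h + 2)) = k := by omega
    rw [h2] at h1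
    have h3 := hS s hs
    rw [← h1] at h3
    apply h3
    rw [coeff_map, h0, map_zero]
  refine ⟨Q * ∏ s ∈ S, coeff 1 (W k s), mul_ne_zero hQ0 (Finset.prod_ne_zero_iff.mpr hP), ?_⟩
  intro ε hε
  rw [Polynomial.eval_mul, Polynomial.eval_prod] at hε
  have hQε := left_ne_zero_of_mul hε
  have hPε := Finset.prod_ne_zero_iff.mp (right_ne_zero_of_mul hε)
  have hw0 := hWs.map (Polynomial.evalRingHom ε)
  have hval : ∀ j, h + 2 ≤ j → j ≤ k → ∀ i, constantCoeff (ev ε (W j i)) = v j i := by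
    intro j h1 h2 i
    have h3 := N_pos (L := 0) (fun l _ hl => hN l hl) (by omega) (k - j) j (by omega) (by omega)
    obtain ⟨g, hg⟩ := hWd j h1 h2 i
    have h4 : ev ε (W j i) - z j i = X ^ (N j) * ev ε g := by
      rw [← hevC ε (z j i), ← map_sub, hg, map_mul, map_pow]; simp
    have h5 : ev ε (W j i) = z j i + X ^ (N j) * ev ε g := by rw [← h4]; ring
    rw [h5, map_add, map_mul, map_pow, constantCoeff_X, zero_pow (by omega), zero_mul, add_zero]
    exact hv j h2 i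
  obtain ⟨w, hd1, hd2, hd3, hd4⟩ := down c v (h + 2) (fun j i => ev ε (W j i))
    (hval (h + 2) le_rfl (by omega))
    (fun j hj => by rw [← hv (j + 1) (by omega), ← hv j (by omega), hz.keep j (by omega) (by omega)])
  have hwx : w (h + 2) x = z (h + 2) x + C ε * X ^ (N (h + 2)) := by
    rw [hd1 (h + 2) le_rfl]; exact hWx ε
  have hwu : w (h + 2) u = z (h + 2) u := by
    rw [hd1 (h + 2) le_rfl]; exact hWi ε u hux
  have hkwx : w (h + 1) x = w (h + 2) x := by
    have := hd2 (h + 1) (by omega)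
    rw [hx] at this
    exact this.symm
  -- the unit at level `h + 1`
  obtain ⟨t, ht, htb⟩ : ∃ t, IsUnit t ∧ d⁄dX ℂ (w (h + 1) x) = X ^ m (h + 1) * t := by
    have h1 : X ^ m (h + 1) ∣ d⁄dX ℂ (w (h + 1) x) := by
      rw [hkwx, hwx, map_add, hkx, hu1b]
      refine dvd_add (dvd_mul_right _ _) ?_
      obtain ⟨e, he⟩ : ∃ e, N (h + 2) = m (h + 1) + 1 + e := ⟨N (h + 2) - (m (h + 1) + 1), by omega⟩
      obtain ⟨b, hb⟩ := deriv_X_pow_mul (m (h + 1)) (X ^ e * C ε)
      have h2 : C ε * X ^ (N (h + 2)) = X ^ (m (h + 1) + 1) * (X ^ e * C ε) := by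
        rw [he, pow_add]; ring
      rw [h2, hb]; exact dvd_mul_right _ _
    obtain ⟨t, ht⟩ := h1
    refine ⟨t, ?_, ht⟩
    rw [isUnit_iff_constantCoeff, isUnit_iff_ne_zero]
    rw [hQev, ← hwx, ← hkwx, ht, coeff_X_pow_mul', if_pos le_rfl, Nat.sub_self,
      coeff_zero_eq_constantCoeff_apply] at hQε
    exact hQε
  have hzu := base_const (z := z) hc (fun j hj => hz.keep j (by omega) (by omega))
  have hwu' := base_const (z := w) hc (fun j hj => hd2 j (by omega))
  refine ⟨w, ⟨?_, ?_, ?_⟩, ?_, ?_, hwu, hwx⟩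
  · intro j _ hj
    rcases Nat.lt_or_ge j (h + 2) with h1 | h1
    · exact hd2 j h1
    · rw [hd1 j h1, hd1 (j + 1) (by omega)]; exact hw0.keep j h1 hj
  · intro j _ hj i hi
    rcases Nat.lt_or_ge j (h + 2) with h1 | h1
    · exact hd3 j h1 i hi
    · rw [hd1 j h1, hd1 (j + 1) (by omega)]; exact hw0.slope j h1 hj i hi
  · intro j _ hj
    rcases Nat.lt_or_ge j (h + 2) with h1 | h1
    · rcases Nat.eq_or_lt_of_le (Nat.lt_succ_iff.mp h1) with h2 | h2
      · subst h2; rw [hx]; exact ⟨t, ht, htb⟩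
      · -- the old base
        have h3 : j ≤ h := by omega
        obtain ⟨uj, huj, hujb⟩ := hz.unit j (by omega) hj
        rw [hc j h3, hzu j (by omega), ← hzu (h + 1) le_rfl] at hujb
        have h4 := hz.slope (h + 1) (by omega) (by omega) u (by rw [hx]; exact hux)
        rw [hx, hu1b, hujb] at h4
        obtain ⟨u1', hu1'⟩ := hu1.exists_right_inv
        have hu1u : IsUnit u1' := IsUnit.of_mul_eq_one u1 (by rw [mul_comm]; exact hu1')
        have h5 := hd3 (h + 1) (by omega) u (by rw [hx]; exact hux)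
        rw [hx, htb, hwu] at h5
        refine ⟨uj * u1' * t, (huj.mul hu1u).mul ht, ?_⟩
        rw [hc j h3, hwu' j (by omega), ← hwu' (h + 1) le_rfl, h5]
        linear_combination (-(u1' * t)) * h4 - (z (h + 2) u * X ^ m (h + 1) * t) * hu1'
    · rw [hd1 j h1]; exact hw0.unit j h1 hj
  · intro j hj i
    rcases Nat.lt_or_ge j (h + 2) with h1 | h1
    · exact hd4 j h1.le i
    · rw [hd1 j h1]; exact hval j h1 hj i
  · intro s hs
    rw [hd1 k (by omega)]
    have := hPε s hs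
    rw [coeff_map]; exact this

end Pool.Agent.X128.JI
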