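import Pool.Agent.X128.JI.E
import Pool.Agent.Results.MP_32880b_ag.MultiplicityWellDefined

/-! # Jet identification numbers: definitions and main argument -/

namespace Pool.Agent.X128.JI

open PowerSeries
open Pool.Agent.Results.MP_32880b_ag.MultiplicityWellDefined

/-- a nonconstant germ -/
def Nonconstant {n : ℕ} (γ : Fin n → ℂ⟦X⟧) : Prop := ∃ i, γ i ≠ C (constantCoeff (γ i))

/-- `γ ∈ Germ(p)`: the germ `γ` has a lift in the chart `c`, with the values `v` at `t = 0` (i.e.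
`γ^k(0) = p`), which is regular. -/
def InGerm {n : ℕ} (c : ℕ → Fin n) (v : ℕ → Fin n → ℂ) (k : ℕ) (γ : Fin n → ℂ⟦X⟧) : Prop :=
  ∃ z : ℕ → Fin n → ℂ⟦X⟧, IsLift c k γ z ∧ (∀ j ≤ k, ∀ i, value z j i = v j i) ∧ IsRegular c k z

/-- `j^r (γ ∘ τ) = β` for some local biholomorphism `τ` of `(ℂ, 0)`. -/
def RepEq {n : ℕ} (r : ℕ) (γ β : Fin n → ℂ⟦X⟧) : Prop :=
  ∃ τ : ℂ⟦X⟧, Convergent τ ∧ constantCoeff τ = 0 ∧ coeff 1 τ ≠ 0 ∧
    ∀ i, ∀ l ≤ r, coeff l ((γ i).subst τ : ℂ⟦X⟧) = coeff l (β i)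

/-- The point has jet identification number `r`. -/
def HasJetId {n : ℕ} (c : ℕ → Fin n) (v : ℕ → Fin n → ℂ) (k r : ℕ) : Prop :=
  ∃ β : Fin n → ℂ⟦X⟧, ∀ γ : Fin n → ℂ⟦X⟧, (∀ i, Convergent (γ i)) → Nonconstant γ →
    (InGerm c v k γ ↔ RepEq r γ β)

/-- The point is a Cartan point: `p = γ^k(0)` for some immersed germ `γ`. -/
def IsCartan {n : ℕ} (c : ℕ → Fin n) (v : ℕ → Fin n → ℂ) (k : ℕ) : Prop :=
  ∃ (γ : Fin n → ℂ⟦X⟧) (z : ℕ → Fin n → ℂ⟦X⟧), (∀ i, Convergent (γ i)) ∧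
    (∃ i, coeff 1 (γ i) ≠ 0) ∧ IsLift c k γ z ∧ ∀ j ≤ k, ∀ i, value z j i = v j i

/-- The chart `c` is adapted to the point `v`: the base coordinate is changed only when the next
line of the point is vertical. -/
def Adapted {n : ℕ} (c : ℕ → Fin n) (v : ℕ → Fin n → ℂ) (k : ℕ) : Prop :=
  ∀ j, j + 1 < k → c (j + 1) ≠ c j → v (j + 2) (c j) = 0

section
variable {n : ℕ} {c : ℕ → Fin n} {k : ℕ} {γ : Fin n → ℂ⟦X⟧} {z : ℕ → Fin n → ℂ⟦X⟧}

theorem steps_of_isLift (h : IsLift c k γ z) (m : ℕ → ℕ)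
    (hm : ∀ j < k, ord (z j (c j)) = ((m j + 1 : ℕ) : ℕ∞)) : Steps c m 0 k z := by
  refine ⟨fun j _ hj => h.keep j hj, fun j _ hj i hi => h.slope j hj i hi, fun j _ hj => ?_⟩
  obtain ⟨u, hu, hub⟩ := exists_unit (h.nonconst j hj)
  refine ⟨u, hu, ?_⟩
  have h1 := hm j hj
  rw [ord_eq] at h1
  have h2 : (d⁄dX ℂ (z j (c j))).order = (m j : ℕ∞) := by
    push_cast at h1
    exact (ENat.add_left_injective_of_ne_top ENat.one_ne_top) h1
  rw [h2] at hub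
  simpa using hub

theorem isLift_of_steps {m : ℕ → ℕ} (h : Steps c m 0 k z) : IsLift c k (z 0) z := by
  refine ⟨rfl, fun j hj => h.keep j (by omega) hj, fun j hj => ?_,
    fun j hj i hi => h.slope j (by omega) hj i hi⟩
  obtain ⟨u, hu, hub⟩ := h.unit j (by omega) hj
  rw [hub]
  exact mul_ne_zero (pow_ne_zero _ X_ne_zero) hu.ne_zero

theorem ord_of_steps {m : ℕ → ℕ} (h : Steps c m 0 k z) {j : ℕ} (hj : j < k) :
    ord (z j (c j)) = ((m j + 1 : ℕ) : ℕ∞) := by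
  obtain ⟨u, hu, hub⟩ := h.unit j (by omega) hj
  rw [ord_eq, hub, order_mul, order_X_pow]
  have : u.order = 0 := order_of_ne (by
    have := isUnit_iff_constantCoeff.mp hu
    exact this.ne_zero)
  rw [this]; push_cast; simp

/-- orders in critical directions -/
theorem crit_le {m : ℕ → ℕ} (h : Steps c m 0 k z) (hr : IsRegular c k z) (N : ℕ → ℕ)
    (hNk : N k = 1) (hN : ∀ l < k, N l = N (l + 1) + (m l + 1)) :
    ∀ d j, j + d = k → ∀ s, IsCritical c (value z) j s → ord (z j s) ≤ (N j : ℕ∞) := by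
  have hL := isLift_of_steps h
  intro d
  induction d with
  | zero =>
    intro j hj s hs
    have : j = k := by omega
    subst this
    rw [ord_of_coeff_one (hr.2 s hs), hNk]; simp
  | succ d ih =>
    intro j hj s hs
    have hjk : j < k := by omega
    rw [hN j hjk]
    by_cases hsc : s = c j
    · rw [hsc, ord_of_steps h hjk]
      exact_mod_cast (by omega : m j + 1 ≤ N (j + 1) + (m j + 1))
    · rw [ord_slope hL hjk hsc, ord_of_steps h hjk]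
      push_cast
      gcongr
      by_cases h0 : value z (j + 1) s = 0
      · have := ih (j + 1) (by omega) s (crit_step hs hsc h0)
        rwa [ord_of_zero h0] at this
      · rw [order_of_ne h0]; exact zero_le
end

theorem regular_of_close {n : ℕ} {c : ℕ → Fin n} {k : ℕ} {v : ℕ → Fin n → ℂ}
    {w : ℕ → Fin n → ℂ⟦X⟧} (hk : 1 ≤ k)
    (hv : ∀ j ≤ k, ∀ i, value w j i = v j i)
    (hS : ∀ s, IsCritical c v k s → coeff 1 (w k s) ≠ 0) : IsRegular c k w := by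
  have hcr : ∀ s, IsCritical c (value w) k s → IsCritical c v k s := by
    rintro s ⟨j, hj, hc, hF⟩
    refine ⟨j, hj, hc, fun i h1 h2 => ⟨(hF i h1 h2).1, ?_⟩⟩
    rw [← hv (i + 1) (by omega)]
    exact (hF i h1 h2).2
  refine ⟨?_, fun s hs => hS s (hcr s hs)⟩
  obtain ⟨k', rfl⟩ : ∃ k', k = k' + 1 := ⟨k - 1, by omega⟩
  refine ⟨k' + 1, le_rfl, c k', hS _ ?_⟩
  exact ⟨k', Nat.lt_succ_self _, rfl, fun i h1 h2 => by omega⟩

theorem subst_eq_cmp {r : ℕ} {n : ℕ} {γ β : Fin n → ℂ⟦X⟧} (h : RepEq r γ β) :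
    ∃ (φ : ℂ⟦X⟧ →+* ℂ⟦X⟧) (τ : ℂ⟦X⟧), Cmp φ τ ∧ coeff 1 τ ≠ 0 ∧
      ∀ i, X ^ (r + 1) ∣ φ (γ i) - β i := by
  obtain ⟨τ, -, h0, h1, h2⟩ := h
  obtain ⟨φ, hφ, hφ2⟩ := exists_cmp τ h0
  refine ⟨φ, τ, hφ, h1, fun i => ?_⟩
  rw [X_pow_dvd_iff]
  intro l hl
  rw [map_sub, hφ2, h2 i l (by omega), sub_self]

theorem cmp_dvd {φ : ℂ⟦X⟧ →+* ℂ⟦X⟧} {τ : ℂ⟦X⟧} (h : Cmp φ τ) {e : ℕ} {f : ℂ⟦X⟧}
    (hf : X ^ e ∣ f) : X ^ e ∣ φ f := by
  obtain ⟨g, hg⟩ := hf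
  obtain ⟨ρ, hρ, -⟩ := h.exists_rho
  rw [hg, map_mul, map_pow, h.mX, hρ, mul_pow, mul_assoc]
  exact dvd_mul_right _ _

end Pool.Agent.X128.JI
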