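import Pool.Agent.X128.JI.F

/-! # Jet identification numbers: the main argument -/

namespace Pool.Agent.X128.JI

open PowerSeries
open Pool.Agent.Results.MP_32880b_ag.MultiplicityWellDefined

/-- if the base never changes, the point is a Cartan point -/
theorem cartan_of_const {n : ℕ} {k : ℕ} (hk : 2 ≤ k) {c : ℕ → Fin n} {v : ℕ → Fin n → ℂ}
    (hvc : ∀ j < k, v (j + 1) (c j) = v j (c j)) (hc : ∀ j < k, c j = c 0) : IsCartan c v k := by
  classical
  obtain ⟨w, h1, h2, h3, h4⟩ := down c v k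
    (fun _ i => if i = c 0 then C (v k i) + X else C (v k i))
    (by intro i; by_cases hi : i = c 0 <;> simp [hi]) hvc
  have hk0 : w k (c 0) = C (v k (c 0)) + X := by rw [h1 k le_rfl]; simp
  have hw : ∀ j ≤ k, w j (c 0) = w 0 (c 0) := by
    intro j
    induction j with
    | zero => intro _; rfl
    | succ j ih =>
      intro hj
      have := h2 j (by omega)
      rw [hc j (by omega)] at this
      rw [this]; exact ih (by omega)
  have hw2 : ∀ j ≤ k, w j (c 0) = C (v k (c 0)) + X := fun j hj => by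
    rw [hw j hj, ← hw k le_rfl, hk0]
  have hs : Steps c (fun _ => 0) 0 k w := by
    refine ⟨fun j _ hj => h2 j hj, fun j _ hj i hi => h3 j hj i hi, fun j _ hj => ⟨1, isUnit_one, ?_⟩⟩
    rw [hc j hj, hw2 j hj.le, map_add, derivative_C, derivative_X]; simp
  obtain ⟨w', g1, g2, g3, g4⟩ := trunc_lift hs 2
  refine ⟨w' 0, w', g2, ⟨c 0, ?_⟩, isLift_of_steps g1, fun j hj i => ?_⟩
  · rw [coeff_of_dvd_sub (g3 (c 0)) (by omega), hw2 0 (by omega)]
    simp [coeff_C]
  · unfold value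
    rw [← coeff_zero_eq_constantCoeff_apply, coeff_of_dvd_sub (g4 j hj i) (by omega),
      coeff_zero_eq_constantCoeff_apply]
    exact h4 j hj i

theorem main {n : ℕ} (hn : 3 ≤ n) {k : ℕ} (hk : 2 ≤ k) (c : ℕ → Fin n) (v : ℕ → Fin n → ℂ)
    (hA : Adapted c v k) (hC : ¬ IsCartan c v k) (r : ℕ) : ¬ HasJetId c v k r := by
  classical
  rintro ⟨β, H⟩
  set βt : Fin n → ℂ⟦X⟧ := fun i => ((trunc (r + 1) (β i) : Polynomial ℂ) : ℂ⟦X⟧) with hβt
  set Γ : Fin n → ℂ → Fin n → ℂ⟦X⟧ :=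
    fun i0 ε i => βt i + if i = i0 then C ε * X ^ (r + 1) else 0 with hΓ
  have hβtc : ∀ i l, r + 1 ≤ l → coeff l (βt i) = 0 := by
    intro i l hl
    simp only [hβt]
    rw [Polynomial.coeff_coe, coeff_trunc, if_neg (by omega)]
  have hΓc : ∀ i0 ε i l, coeff l (Γ i0 ε i)
      = coeff l (βt i) + if i = i0 then (if l = r + 1 then ε else 0) else 0 := by
    intro i0 ε i l
    simp only [hΓ, map_add]
    congr 1
    by_cases hi : i = i0
    · simp only [hi, if_true]
      rw [coeff_C_mul, coeff_X_pow]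
      split_ifs <;> simp
    · simp [hi]
  have hΓconv : ∀ i0 ε i, Convergent (Γ i0 ε i) := by
    intro i0 ε i
    have : Γ i0 ε i = ((trunc (r + 2) (Γ i0 ε i) : Polynomial ℂ) : ℂ⟦X⟧) := by
      ext l
      rw [Polynomial.coeff_coe, coeff_trunc]
      split_ifs with hl
      · rfl
      · rw [hΓc, hβtc i l (by omega), if_neg (show ¬ l = r + 1 by omega)]; simp
    rw [this]; exact convergent_trunc _ _
  have hΓrep : ∀ i0 ε, RepEq r (Γ i0 ε) β := by
    intro i0 ε
    refine ⟨X, ?_, constantCoeff_X, by rw [coeff_one_X]; exact one_ne_zero, fun i l hl => ?_⟩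
    · have : (X : ℂ⟦X⟧) = ((trunc 2 (X : ℂ⟦X⟧) : Polynomial ℂ) : ℂ⟦X⟧) := by
        ext l
        rw [Polynomial.coeff_coe, coeff_trunc]
        split_ifs with hl
        · rfl
        · rw [coeff_X, if_neg (by omega)]
      rw [this]; exact convergent_trunc _ _
    · have h1 : ((Γ i0 ε i).subst (X : ℂ⟦X⟧) : ℂ⟦X⟧) = Γ i0 ε i := X_subst _
      rw [h1, hΓc, if_neg (show ¬ l = r + 1 by omega)]
      simp only [ite_self, add_zero, hβt]
      rw [Polynomial.coeff_coe, coeff_trunc, if_pos (by omega)]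
  have hone : ∀ i0, InGerm c v k (Γ i0 1) := by
    intro i0
    refine (H _ (hΓconv i0 1) ⟨i0, fun h => ?_⟩).mpr (hΓrep i0 1)
    have h1 := congrArg (coeff (r + 1)) h
    rw [hΓc, hβtc i0 _ le_rfl] at h1
    simp [coeff_C] at h1
  -- the point is consistent
  have hvc : ∀ j < k, v (j + 1) (c j) = v j (c j) := by
    obtain ⟨z, hz1, hz2, -⟩ := hone (c 0)
    intro j hj
    rw [← hz2 (j + 1) (by omega), ← hz2 j (by omega)]
    unfold value
    rw [hz1.keep j hj]
  -- the first change of base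
  have hex : ∃ h, h + 1 < k ∧ c (h + 1) ≠ c h := by
    by_contra hno
    push Not at hno
    apply hC
    refine cartan_of_const hk hvc ?_
    intro j
    induction j with
    | zero => intro _; rfl
    | succ j ih => intro hj; rw [hno j hj]; exact ih (by omega)
  set h := Nat.find hex with hhdef
  obtain ⟨hh, hch⟩ := Nat.find_spec hex
  rw [← hhdef] at hh hch
  have hc : ∀ j ≤ h, c j = c 0 := by
    intro j
    induction j with
    | zero => intro _; rfl
    | succ j ih =>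
      intro hj
      have h1 := Nat.find_min hex (show j < Nat.find hex by omega)
      have h2 : c (j + 1) = c j := by
        by_contra h3
        exact h1 ⟨by omega, h3⟩
      rw [h2]; exact ih (by omega)
  set u := c 0 with hu
  set x := c (h + 1) with hx
  have hux : u ≠ x := by rw [← hc h le_rfl]; exact hch.symm
  obtain ⟨i0, hi0⟩ : ∃ i0 : Fin n, i0 ∉ ({u, x} : Finset (Fin n)) := by
    by_contra hall
    push Not at hall
    have h1 : (Finset.univ : Finset (Fin n)) ⊆ {u, x} := fun i _ => hall i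
    have h2 := Finset.card_le_card h1
    have h3 := Finset.card_le_two (a := u) (b := x)
    rw [Finset.card_univ, Fintype.card_fin] at h2
    omega
  have hi0u : i0 ≠ u := fun h => hi0 (by simp [h])
  have hi0x : i0 ≠ x := fun h => hi0 (by simp [h])
  -- all `Γ i0 ε` are in `Germ(p)`
  have hΓu : ∀ ε, Γ i0 ε u = βt u := by
    intro ε; simp only [hΓ, if_neg hi0u.symm, add_zero]
  have hdβ : d⁄dX ℂ (βt u) ≠ 0 := by
    obtain ⟨z, hz1, -, -⟩ := hone i0
    have h1 := hz1.nonconst 0 (by omega)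
    rw [hz1.base, ← hu, hΓu] at h1
    exact h1
  have hall : ∀ ε, InGerm c v k (Γ i0 ε) := by
    intro ε
    refine (H _ (hΓconv i0 ε) ⟨u, fun h => hdβ ?_⟩).mpr (hΓrep i0 ε)
    rw [hΓu] at h
    rw [h, derivative_C]
  choose z hzL hzv hzr using hall
  -- the orders
  set m : ℕ → ℕ := fun j => (d⁄dX ℂ (z 0 j (c j))).order.toNat with hm
  have hord : ∀ ε, ∀ j < k, ord (z ε j (c j)) = ((m j + 1 : ℕ) : ℕ∞) := by
    intro ε j hj
    have h1 := (key (hzL ε) (hzL 0) (fun j hj i => (hzv ε j hj i).trans (hzv 0 j hj i).symm)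
      (hzr ε) (hzr 0) (k - j) j (by omega)).2 hj
    rw [h1, ord_eq]
    have h2 : (d⁄dX ℂ (z 0 j (c j))).order ≠ ⊤ := fun h => (hzL 0).nonconst j hj (order_eq_top.mp h)
    rw [hm]
    push_cast
    rw [ENat.natCast_toNat h2]
  have hS : ∀ ε, Steps c m 0 k (z ε) := fun ε => steps_of_isLift (hzL ε) m (hord ε)
  set N : ℕ → ℕ := fun l => 1 + ∑ j ∈ Finset.Ico l k, (m j + 1) with hNdef
  have hN : ∀ l < k, N l = N (l + 1) + (m l + 1) := by
    intro l hl
    simp only [hNdef]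
    rw [Finset.sum_eq_sum_Ico_succ_bot hl]; ring
  have hNk : N k = 1 := by simp [hNdef]
  have hzu := base_const (z := z 0) hc (fun j hj => (hS 0).keep j (by omega) (by omega))
  have hmu : ∀ j ≤ h, m j + 1 = m 0 + 1 := by
    intro j hj
    simp only [hm]
    rw [hc j hj, hzu j (by omega)]
  -- lower bound
  have hbound : (h + 1) * (m 0 + 1) + (N (h + 2) + 1) ≤ r + 1 := by
    set G : Fin n → (Polynomial ℂ)⟦X⟧ := fun i => PowerSeries.map Polynomial.C (βt i)
      + if i = i0 then C (Polynomial.X : Polynomial ℂ) * X ^ (r + 1) else 0 with hG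
    have hevC : ∀ (ε : ℂ) (g : ℂ⟦X⟧), ev ε (PowerSeries.map Polynomial.C g) = g := by
      intro ε g
      ext l
      rw [coeff_map, coeff_map]; simp
    have hGev : ∀ ε i, ev ε (G i) = z ε 0 i := by
      intro ε i
      rw [(hzL ε).base]
      simp only [hG, hΓ, map_add, hevC]
      congr 1
      by_cases hi : i = i0
      · simp [hi]
      · simp [hi]
    obtain ⟨Z, hZ0, hZs, hZev⟩ := family c m G z hGev k hS
    have hlinC : ∀ g : ℂ⟦X⟧, lin (PowerSeries.map Polynomial.C g) = 0 := by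
      intro g
      ext l
      unfold lin
      rw [coeff_mk, coeff_map, Polynomial.coeff_C, if_neg one_ne_zero, map_zero]
    have hadd : ∀ f g : (Polynomial ℂ)⟦X⟧, lin (f + g) = lin f + lin g := by
      intro f g
      ext l
      unfold lin
      simp
    have hlinX : lin (C (Polynomial.X : Polynomial ℂ) * X ^ (r + 1)) = X ^ (r + 1) := by
      ext l
      unfold lin
      rw [coeff_mk, coeff_C_mul, coeff_X_pow, coeff_X_pow]
      split_ifs <;> simp
    have hzero : lin 0 = 0 := by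
      ext l; unfold lin; simp
    have hLin : LinLift c m k (z 0) (fun j i => lin (Z j i)) := by
      refine ⟨hS 0, fun j hj => ?_, fun j hj i hi => ?_, fun j hj i => ?_⟩
      · simp only [hZs.keep j (by omega) hj]
      · rw [← lin_deriv, hZs.slope j (by omega) hj i hi, lin_mul, lin_deriv, ← deriv_map,
          hZev j hj.le 0, hZev (j + 1) hj 0]
      · have h1 : coeff 0 (Z j i) = Polynomial.C (v j i) := by
          apply Polynomial.funext
          intro ε
          have h2 := hzv ε j hj i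
          unfold value at h2
          rw [← hZev j hj ε i, ← coeff_zero_eq_constantCoeff_apply, coeff_map] at h2
          rw [Polynomial.eval_C]
          exact h2
        rw [← coeff_zero_eq_constantCoeff_apply]
        unfold lin
        rw [coeff_mk, h1, Polynomial.coeff_C, if_neg one_ne_zero]
    refine hLin.bound N hNk hN hh hc rfl hi0u hi0x hux.symm (m 0 + 1) hmu (r + 1) ?_ ?_
    · rw [hZ0]
      simp only [hG, if_true]
      rw [hadd, hlinC, hlinX, zero_add]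
    · intro i' hi'
      rw [hZ0]
      simp only [hG, if_neg hi', add_zero]
      exact hlinC _
  -- the order of `dX` is at most `M`
  have hμM : m (h + 1) + 1 ≤ N (h + 2) := by
    have h1 := crit_le (hS 0) (hzr 0) N hNk hN (k - (h + 2)) (h + 2) (by omega) (c (h + 1))
      (crit_top (h + 1))
    rw [(hS 0).keep (h + 1) (by omega) (by omega), hord 0 (h + 1) (by omega)] at h1
    exact_mod_cast h1
  obtain ⟨P, hP0, hP⟩ := deform (hS 0) N hNk hN hh hc rfl hux v (hzv 0) hμM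
    (Finset.univ.filter fun s => IsCritical c v k s) (by
      intro s hs
      rw [Finset.mem_filter] at hs
      refine (hzr 0).2 s ?_
      obtain ⟨j, hj, hcj, hF⟩ := hs.2
      refine ⟨j, hj, hcj, fun i h1 h2 => ⟨(hF i h1 h2).1, ?_⟩⟩
      rw [hzv 0 (i + 1) (by omega)]
      exact (hF i h1 h2).2)
  have hgood : ∀ ε : ℂ, P.eval ε ≠ 0 → ∃ (w : ℕ → Fin n → ℂ⟦X⟧) (φ : ℂ⟦X⟧ →+* ℂ⟦X⟧) (τ : ℂ⟦X⟧),
      Steps c m 0 k w ∧ w (h + 2) u = z 0 (h + 2) u ∧
      w (h + 2) x = z 0 (h + 2) x + C ε * X ^ (N (h + 2)) ∧ Cmp φ τ ∧ coeff 1 τ ≠ 0 ∧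
      ∀ i, X ^ (r + 1) ∣ φ (w 0 i) - β i := by
    intro ε hε
    obtain ⟨w, w1, w2, w3, w4, w5⟩ := hP ε hε
    obtain ⟨w', g1, g2, g3, g4⟩ := trunc_lift w1 (r + 1)
    have hval : ∀ j ≤ k, ∀ i, value w' j i = v j i := by
      intro j hj i
      unfold value
      rw [← coeff_zero_eq_constantCoeff_apply, coeff_of_dvd_sub (g4 j hj i) (by omega),
        coeff_zero_eq_constantCoeff_apply]
      exact w2 j hj i
    have hreg : IsRegular c k w' := by
      refine regular_of_close (by omega) hval (fun s hs => ?_)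
      rw [coeff_of_dvd_sub (g4 k le_rfl s) (by omega)]
      exact w3 s (by simp [hs])
    have hlift := isLift_of_steps g1
    have hrep := (H (w' 0) g2 ⟨c 0, fun h => hlift.nonconst 0 (by omega) (by
      rw [h, derivative_C])⟩).mp ⟨w', hlift, hval, hreg⟩
    obtain ⟨φ, τ, t1, t2, t3⟩ := subst_eq_cmp hrep
    refine ⟨w, φ, τ, w1, w4, w5, t1, t2, fun i => ?_⟩
    have h1 := cmp_dvd t1 (g3 i)
    rw [map_sub] at h1
    have h2 := dvd_sub (t3 i) h1
    have h3 : φ (w' 0 i) - β i - (φ (w' 0 i) - φ (w 0 i)) = φ (w 0 i) - β i := by ring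
    rwa [h3] at h2
  -- the slope of the old base
  obtain ⟨u1, hu1, hu1b⟩ := (hS 0).unit (h + 1) (by omega) (by omega)
  obtain ⟨u0, hu0, hu0b⟩ := (hS 0).unit h (by omega) (by omega)
  have hslu := (hS 0).slope (h + 1) (by omega) (by omega) u hux
  have hσne : z 0 (h + 2) u ≠ 0 := by
    intro h0
    have h1 : z 0 (h + 1) u = z 0 h u := by rw [hzu (h + 1) le_rfl, hzu h (by omega)]
    rw [h1] at hslu
    have h2 : z 0 (h + 1 + 1) u = 0 := h0
    rw [h2, zero_mul, ← hc h le_rfl, hu0b] at hslu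
    exact mul_ne_zero (pow_ne_zero _ X_ne_zero) hu0.ne_zero hslu
  obtain ⟨s, hs, hsb⟩ := exists_unit hσne
  set q := (z 0 (h + 2) u).order.toNat with hq
  have hqpos : 1 ≤ q := by
    by_contra hlt
    have hq0 : q = 0 := by omega
    rw [hq0, pow_zero, one_mul] at hsb
    have h1 := isUnit_iff_constantCoeff.mp hs
    rw [← hsb] at h1
    have h2 := hzv 0 (h + 2) (by omega) u
    have h3 := hA h hh hch
    rw [hc h le_rfl] at h3
    unfold value at h2
    rw [h2, h3] at h1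
    simp at h1
  have hμ0 : m 0 + 1 = q + (m (h + 1) + 1) := by
    have h1 : z 0 (h + 1) u = z 0 h u := by rw [hzu (h + 1) le_rfl, hzu h (by omega)]
    rw [h1] at hslu
    have h2 : z 0 (h + 1 + 1) u = X ^ q * s := hsb
    rw [hc h le_rfl] at hu0b
    rw [h2, hu0b, hu1b] at hslu
    have h3 : X ^ m h * u0 = X ^ (q + m (h + 1)) * (s * u1) := by
      rw [hslu, pow_add]; ring
    have h4 := pow_unit_inj hu0 (hs.mul hu1) h3
    have h5 := hmu h le_rfl
    omega
  -- the coordinate `X`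
  obtain ⟨g, hg⟩ : ∃ g, z 0 (h + 2) x = C (v (h + 2) x) + X ^ (m (h + 1) + 1) * g := by
    have h1 : X ^ (m (h + 1) + 1) ∣ z 0 (h + 2) x - C (v (h + 2) x) := by
      apply int_dvd
      · rw [map_sub, derivative_C, sub_zero]
        have h2 : z 0 (h + 2) x = z 0 (h + 1) x := (hS 0).keep (h + 1) (by omega) (by omega)
        rw [h2, hu1b]; exact dvd_mul_right _ _
      · rw [map_sub, constantCoeff_C]
        have := hzv 0 (h + 2) (by omega) x
        unfold value at this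
        rw [this, sub_self]
    obtain ⟨g, hg⟩ := h1
    exact ⟨g, by rw [← hg]; ring⟩
  -- the numbers
  obtain ⟨b', hb'⟩ : ∃ b', r + 1 = (h + 1) * (m 0 + 1) + ((m (h + 1) + 1) + b') :=
    ⟨r + 1 - (h + 1) * (m 0 + 1) - (m (h + 1) + 1), by omega⟩
  have hb'1 : 1 ≤ b' := by omega
  have hM : N (h + 2) < m (h + 1) + 1 + b' := by omega
  have htwo : ∀ ε₁ (h₁ : P.eval ε₁ ≠ 0) ε₂ (h₂ : P.eval ε₂ ≠ 0) w₁ w₂ (φ₁ φ₂ : ℂ⟦X⟧ →+* ℂ⟦X⟧) τ₁ τ₂,
      (Steps c m 0 k w₁ ∧ w₁ (h + 2) u = z 0 (h + 2) u ∧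
      w₁ (h + 2) x = z 0 (h + 2) x + C ε₁ * X ^ (N (h + 2)) ∧ Cmp φ₁ τ₁ ∧ coeff 1 τ₁ ≠ 0 ∧
      ∀ i, X ^ (r + 1) ∣ φ₁ (w₁ 0 i) - β i) →
      (Steps c m 0 k w₂ ∧ w₂ (h + 2) u = z 0 (h + 2) u ∧
      w₂ (h + 2) x = z 0 (h + 2) x + C ε₂ * X ^ (N (h + 2)) ∧ Cmp φ₂ τ₂ ∧ coeff 1 τ₂ ≠ 0 ∧
      ∀ i, X ^ (r + 1) ∣ φ₂ (w₂ 0 i) - β i) →
      X ^ (m (h + 1) + 1 + b') ∣ φ₁ (C (v (h + 2) x) + X ^ (m (h + 1) + 1) * g + C ε₁ * X ^ (N (h + 2)))
        - φ₂ (C (v (h + 2) x) + X ^ (m (h + 1) + 1) * g + C ε₂ * X ^ (N (h + 2))) ∧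
      X ^ (q + b') ∣ φ₁ (X ^ q * s) - φ₂ (X ^ q * s) := by
    intro ε₁ h₁ ε₂ h₂ w₁ w₂ φ₁ φ₂ τ₁ τ₂ ⟨a1, a2, a3, a4, a5, a6⟩ ⟨b1, b2, b3, b4, b5, b6⟩
    have S1 := a1.comp a4 a5
    have S2 := b1.comp b4 b5
    have S1' : Steps c m 0 (h + 2) (fun j i => φ₁ (w₁ j i)) :=
      ⟨fun j p q => S1.keep j p (by omega), fun j p q => S1.slope j p (by omega),
        fun j p q => S1.unit j p (by omega)⟩
    have S2' : Steps c m 0 (h + 2) (fun j i => φ₂ (w₂ j i)) :=
      ⟨fun j p q => S2.keep j p (by omega), fun j p q => S2.slope j p (by omega),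
        fun j p q => S2.unit j p (by omega)⟩
    have hcomp := compare S1' S2' u x hux hc rfl (m 0 + 1) (m (h + 1) + 1) q
      (m (h + 1) + 1 + b') b' hmu rfl hμ0 rfl (by
        intro i
        rw [← hb']
        have h3 := dvd_sub (a6 i) (b6 i)
        have h4 : φ₁ (w₁ 0 i) - β i - (φ₂ (w₂ 0 i) - β i) = φ₁ (w₁ 0 i) - φ₂ (w₂ 0 i) := by ring
        rwa [h4] at h3) (by
        refine cmp_dvd b4 ?_
        rw [b2, hsb]; exact dvd_mul_right _ _)
    rw [a2, b2, a3, b3, hsb, hg] at hcomp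
    exact hcomp
  have hinf : Set.Infinite {ε : ℂ | P.eval ε ≠ 0} := by
    have h1 : Set.Finite {ε : ℂ | P.IsRoot ε} := Polynomial.finite_setOfPred_isRoot hP0
    exact h1.infinite_compl
  choose! W Φ T hW using hgood
  obtain ⟨εs, hεs⟩ := hinf.nonempty
  have hfin : Set.Finite {ζ : ℂ | ζ ^ q = coeff 1 (T εs) ^ q} := by
    refine ((Polynomial.nthRoots q (coeff 1 (T εs) ^ q)).toFinset.finite_toSet).subset ?_
    intro ζ hζ
    simp only [Finset.mem_coe, Multiset.mem_toFinset]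
    exact (Polynomial.mem_nthRoots hqpos).mpr hζ
  have hmaps : Set.MapsTo (fun ε => coeff 1 (T ε)) {ε : ℂ | P.eval ε ≠ 0}
      {ζ : ℂ | ζ ^ q = coeff 1 (T εs) ^ q} := by
    intro ε hε
    have h1 := (htwo ε hε εs hεs _ _ _ _ _ _ (hW ε hε) (hW εs hεs)).2
    exact zeta_pow (hW ε hε).2.2.2.1 (hW εs hεs).2.2.2.1 q b' hb'1 s
      (isUnit_iff_constantCoeff.mp hs).ne_zero h1
  obtain ⟨ε₁, hε₁, ε₂, hε₂, hne, heq⟩ := hinf.exists_ne_map_eq_of_mapsTo hmaps hfin
  have h2 := htwo ε₁ hε₁ ε₂ hε₂ _ _ _ _ _ _ (hW ε₁ hε₁) (hW ε₂ hε₂)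
  obtain ⟨q', hq'⟩ : ∃ q', q = q' + 1 := ⟨q - 1, by omega⟩
  rw [hq'] at h2
  exact core (hW ε₁ hε₁).2.2.2.1 (hW ε₂ hε₂).2.2.2.1 heq (hW ε₁ hε₁).2.2.2.2.1 q' (m (h + 1)) b'
    (N (h + 2)) s g (v (h + 2) x) (isUnit_iff_constantCoeff.mp hs).ne_zero ε₁ ε₂ hne hM h2.2 h2.1

end Pool.Agent.X128.JI
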